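import Mathlib

/-!
Weighted reduction framework for two-part defective colourings (MP_4006b4_co).
A net has two capacities `a u`, `b u` at every vertex, edges `E` and links `L`.
-/

namespace Pool.Agent.K1H47.Defect

open Finset

/-- Integer parameters. -/
structure Par where
  A : ℤ
  B : ℤ
  D : ℤ
  K : ℤ
  ca : ℕ
  cb : ℕ
  hA : A = B + K
  hB : 0 < B
  hK : 0 < K
  hD : 2 * (A + B) ≤ D
  hBK : B ≤ 2 * K
  hca : A * ca ≤ D - K
  hcb : B * cb ≤ D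
  hca1 : 1 ≤ ca
  hcb1 : 1 ≤ cb

/-- A net: capacities, edges and links. -/
structure Net (P : Par) where
  a : ℕ → ℕ
  b : ℕ → ℕ
  E : ℕ → ℕ → ℕ
  L : ℕ → ℕ → ℕ
  Es : ∀ u v, E u v = E v u
  Ls : ∀ u v, L u v = L v u
  E0 : ∀ u, E u u = 0
  L0 : ∀ u, L u u = 0
  E1 : ∀ u v, E u v ≤ 1
  Ea : ∀ u v, E u v ≠ 0 → a u ≤ P.ca
  Eb : ∀ u v, E u v ≠ 0 → b u ≤ P.cb

/-- The doubled potential for vertex weights `c` and pair weights `w`. -/
def pot (c : ℕ → ℤ) (w : ℕ → ℕ → ℤ) (S : Finset ℕ) : ℤ :=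
  2 * ∑ v ∈ S, c v - ∑ u ∈ S, ∑ v ∈ S, w u v

variable {P : Par}

def Net.c (G : Net P) (v : ℕ) : ℤ := P.A * (G.a v : ℤ) + P.B * ((G.b v : ℤ) - 1)

def Net.w (G : Net P) (u v : ℕ) : ℤ := P.D * (G.E u v : ℤ) + P.A * (G.L u v : ℤ)

def Net.R (G : Net P) (S : Finset ℕ) : ℤ := pot G.c G.w S

/-- Every nonempty subset has doubled potential above `-2B`. -/
def Net.Good (G : Net P) (V : Finset ℕ) : Prop :=
  ∀ S ⊆ V, S.Nonempty → -2 * P.B < G.R S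

def Net.cap (G : Net P) (c : Bool) (u : ℕ) : ℕ := if c = true then G.a u else G.b u

def Net.load (G : Net P) (V : Finset ℕ) (φ : ℕ → Bool) (p : ℕ → ℕ → ℕ) (u : ℕ) : ℕ :=
  ∑ v ∈ V, (p u v + if φ v = φ u then G.E u v else 0)

structure Net.IsCol (G : Net P) (V : Finset ℕ) (φ : ℕ → Bool) (p : ℕ → ℕ → ℕ) : Prop where
  ld : ∀ u ∈ V, G.load V φ p u < G.cap (φ u) u
  lk : ∀ u ∈ V, ∀ v ∈ V, φ u ≠ φ v → G.L u v ≤ p u v + p v u

def Net.Colorable (G : Net P) (V : Finset ℕ) : Prop := ∃ φ p, G.IsCol V φ p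

lemma Par.A_pos (P : Par) : 0 < P.A := by have := P.hA; have := P.hB; have := P.hK; omega

lemma Par.D_pos (P : Par) : 0 < P.D := by
  have := P.hD; have := P.hB; have := P.A_pos; omega

lemma Net.ws (G : Net P) (u v : ℕ) : G.w u v = G.w v u := by
  simp only [Net.w, G.Es u v, G.Ls u v]

lemma Net.w0 (G : Net P) (u : ℕ) : G.w u u = 0 := by
  simp only [Net.w, G.E0 u, G.L0 u]; simp

lemma Net.w_nonneg (G : Net P) (u v : ℕ) : 0 ≤ G.w u v := by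
  have h1 := P.A_pos; have h2 := P.D_pos
  unfold Net.w; positivity

lemma pot_union {c : ℕ → ℤ} {w : ℕ → ℕ → ℤ} (hw : ∀ u v, w u v = w v u)
    {T X : Finset ℕ} (h : Disjoint T X) :
    pot c w (T ∪ X) = pot c w T + pot c w X - 2 * ∑ x ∈ X, ∑ u ∈ T, w u x := by
  unfold pot
  rw [sum_union h, sum_union h]
  have h1 : ∀ u, ∑ v ∈ T ∪ X, w u v = ∑ v ∈ T, w u v + ∑ v ∈ X, w u v := fun u => sum_union h
  simp only [h1, sum_add_distrib]
  have h2 : ∑ u ∈ T, ∑ v ∈ X, w u v = ∑ x ∈ X, ∑ u ∈ T, w u x := sum_comm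
  have h3 : ∑ u ∈ X, ∑ v ∈ T, w u v = ∑ x ∈ X, ∑ u ∈ T, w u x := by
    refine sum_congr rfl fun x _ => sum_congr rfl fun u _ => hw x u
  rw [h2, h3]; ring

lemma pot_singleton {c : ℕ → ℤ} {w : ℕ → ℕ → ℤ} (x : ℕ) :
    pot c w {x} = 2 * c x - w x x := by
  unfold pot; simp

lemma pot_insert {c : ℕ → ℤ} {w : ℕ → ℕ → ℤ} (hw : ∀ u v, w u v = w v u)
    {X : Finset ℕ} {t : ℕ} (h : t ∉ X) :
    pot c w (insert t X) = pot c w X + 2 * c t - w t t - 2 * ∑ x ∈ X, w t x := by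
  have h1 : insert t X = {t} ∪ X := rfl
  rw [h1, pot_union hw (by simpa using h), pot_singleton]
  simp only [sum_singleton]; ring

/-- Comparison of potentials. -/
lemma pot_ge {c c' c1 : ℕ → ℤ} {w w' w1 : ℕ → ℕ → ℤ} {S : Finset ℕ}
    (hc : ∀ v ∈ S, c v + c1 v ≤ c' v) (hw : ∀ u ∈ S, ∀ v ∈ S, w' u v ≤ w u v + w1 u v) :
    pot c w S + pot c1 w1 S ≤ pot c' w' S := by
  unfold pot
  have h1 : ∑ v ∈ S, c v + ∑ v ∈ S, c1 v ≤ ∑ v ∈ S, c' v := by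
    rw [← sum_add_distrib]; exact sum_le_sum hc
  have h2 : ∑ u ∈ S, ∑ v ∈ S, w' u v ≤ ∑ u ∈ S, ∑ v ∈ S, w u v + ∑ u ∈ S, ∑ v ∈ S, w1 u v := by
    rw [← sum_add_distrib]
    refine sum_le_sum fun u hu => ?_
    rw [← sum_add_distrib]
    exact sum_le_sum fun v hv => hw u hu v hv
  linarith

lemma pot_congr {c c' : ℕ → ℤ} {w w' : ℕ → ℕ → ℤ} {S : Finset ℕ}
    (hc : ∀ v ∈ S, c v = c' v) (hw : ∀ u ∈ S, ∀ v ∈ S, w u v = w' u v) :
    pot c w S = pot c' w' S := by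
  unfold pot
  rw [sum_congr rfl hc, sum_congr rfl fun u hu => sum_congr rfl fun v hv => hw u hu v hv]

/-- Pair indicator. -/
def pr (x y : ℕ) (t : ℤ) (u v : ℕ) : ℤ :=
  (if u = x ∧ v = y then t else 0) + (if u = y ∧ v = x then t else 0)

lemma sum_pr_aux (x y : ℕ) (t : ℤ) (S : Finset ℕ) :
    ∑ u ∈ S, ∑ v ∈ S, (if u = x ∧ v = y then t else 0) = if x ∈ S ∧ y ∈ S then t else 0 := by
  by_cases hx : x ∈ S
  · rw [sum_eq_single_of_mem x hx]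
    · simp [hx]
    · intro u _ hu; simp [hu]
  · rw [sum_eq_zero]
    · simp [hx]
    · intro u hu
      have : u ≠ x := fun h => hx (h ▸ hu)
      simp [this]

lemma pot_pr (c : ℕ → ℤ) (x y : ℕ) (t : ℤ) (S : Finset ℕ) :
    pot c (pr x y t) S = 2 * ∑ v ∈ S, c v - 2 * (if x ∈ S ∧ y ∈ S then t else 0) := by
  unfold pot pr
  simp only [sum_add_distrib, sum_pr_aux]
  have : (y ∈ S ∧ x ∈ S) ↔ (x ∈ S ∧ y ∈ S) := and_comm
  simp only [this]; ring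

end Pool.Agent.K1H47.Defect
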