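import Pool.Agent.K1H47.Defect.Core

/-! Extension of colourings. -/

namespace Pool.Agent.K1H47.Defect

open Finset

variable {P : Par}

/-- Reduced capacities outside `T`. -/
def Net.ext2 (G : Net P) (T : Finset ℕ) (φ φ' : ℕ → Bool) : Net P where
  a w := if ∃ u ∈ T, φ u = true ∧ G.E u w ≠ 0 then 0 else
    G.a w - ∑ u ∈ T, (if φ' u = false then G.L u w else 0)
  b w := if ∃ u ∈ T, φ' u = false ∧ G.E u w ≠ 0 then 0 else
    G.b w - ∑ u ∈ T, (if φ u = true then G.L u w else 0)
  E := G.E
  L := G.L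
  Es := G.Es
  Ls := G.Ls
  E0 := G.E0
  L0 := G.L0
  E1 := G.E1
  Ea u v h := by
    have := G.Ea u v h
    split_ifs
    · omega
    · omega
  Eb u v h := by
    have := G.Eb u v h
    split_ifs
    · omega
    · omega

lemma ext2_a_loss (G : Net P) (T : Finset ℕ) (φ φ' : ℕ → Bool) (x : ℕ) :
    P.A * (G.a x : ℤ) ≤ P.A * ((G.ext2 T φ φ').a x : ℤ) +
      ∑ u ∈ T, ((if φ u = true then (P.D - P.K) * (G.E u x : ℤ) else 0) +
        (if φ' u = false then P.A * (G.L u x : ℤ) else 0)) := by
  have hApos := P.A_pos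
  have hDK : 0 ≤ P.D - P.K := by
    have := P.hca; have h2 := P.hca1
    have : (0 : ℤ) ≤ P.A * (P.ca : ℤ) := by positivity
    omega
  by_cases h : ∃ u ∈ T, φ u = true ∧ G.E u x ≠ 0
  · obtain ⟨u0, hu0, hφ, hE⟩ := h
    have ha : (G.ext2 T φ φ').a x = 0 := by
      simp only [Net.ext2]; rw [if_pos ⟨u0, hu0, hφ, hE⟩]
    rw [ha]
    have h1 : G.a x ≤ P.ca := G.Ea x u0 (by rw [G.Es]; exact hE)
    have hE1 : G.E u0 x = 1 := by have := G.E1 u0 x; omega
    have h2 : P.A * (G.a x : ℤ) ≤ P.A * (P.ca : ℤ) :=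
      mul_le_mul_of_nonneg_left (by exact_mod_cast h1) hApos.le
    have h3 := P.hca
    have h4 : ∀ u ∈ T, 0 ≤ ((if φ u = true then (P.D - P.K) * (G.E u x : ℤ) else 0) +
        (if φ' u = false then P.A * (G.L u x : ℤ) else 0)) := by
      intro u _
      have : 0 ≤ (P.D - P.K) * (G.E u x : ℤ) := by positivity
      have : 0 ≤ P.A * (G.L u x : ℤ) := by positivity
      split_ifs <;> omega
    have h5 := single_le_sum h4 hu0
    have h6 : P.D - P.K ≤ ((if φ u0 = true then (P.D - P.K) * (G.E u0 x : ℤ) else 0) +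
        (if φ' u0 = false then P.A * (G.L u0 x : ℤ) else 0)) := by
      rw [if_pos hφ, hE1]
      have : 0 ≤ P.A * (G.L u0 x : ℤ) := by positivity
      split_ifs <;> push_cast <;> omega
    push_cast
    omega
  · have ha : (G.ext2 T φ φ').a x = G.a x - ∑ u ∈ T, (if φ' u = false then G.L u x else 0) := by
      simp only [Net.ext2]; rw [if_neg h]
    rw [ha]
    have h1 : (G.a x : ℤ) ≤ ((G.a x - ∑ u ∈ T, (if φ' u = false then G.L u x else 0) : ℕ) : ℤ)
        + ∑ u ∈ T, (if φ' u = false then (G.L u x : ℤ) else 0) := by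
      have : (∑ u ∈ T, (if φ' u = false then (G.L u x : ℤ) else 0)) =
        ((∑ u ∈ T, (if φ' u = false then G.L u x else 0) : ℕ) : ℤ) := by
        push_cast; rfl
      rw [this]; omega
    have h2 : ∑ u ∈ T, ((if φ u = true then (P.D - P.K) * (G.E u x : ℤ) else 0) +
        (if φ' u = false then P.A * (G.L u x : ℤ) else 0)) ≥
        P.A * ∑ u ∈ T, (if φ' u = false then (G.L u x : ℤ) else 0) := by
      rw [mul_sum]
      refine sum_le_sum fun u _ => ?_
      have : 0 ≤ (P.D - P.K) * (G.E u x : ℤ) := by positivity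
      split_ifs <;> simp <;> omega
    have h3 := mul_le_mul_of_nonneg_left h1 hApos.le
    rw [mul_add] at h3
    linarith

lemma ext2_b_loss (G : Net P) (T : Finset ℕ) (φ φ' : ℕ → Bool) (x : ℕ) :
    P.B * (G.b x : ℤ) ≤ P.B * ((G.ext2 T φ φ').b x : ℤ) +
      ∑ u ∈ T, ((if φ' u = false then P.D * (G.E u x : ℤ) else 0) +
        (if φ u = true then P.B * (G.L u x : ℤ) else 0)) := by
  have hBpos := P.hB
  have hDpos := P.D_pos
  by_cases h : ∃ u ∈ T, φ' u = false ∧ G.E u x ≠ 0
  · obtain ⟨u0, hu0, hφ, hE⟩ := h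
    have ha : (G.ext2 T φ φ').b x = 0 := by
      simp only [Net.ext2]; rw [if_pos ⟨u0, hu0, hφ, hE⟩]
    rw [ha]
    have h1 : G.b x ≤ P.cb := G.Eb x u0 (by rw [G.Es]; exact hE)
    have hE1 : G.E u0 x = 1 := by have := G.E1 u0 x; omega
    have h2 : P.B * (G.b x : ℤ) ≤ P.B * (P.cb : ℤ) :=
      mul_le_mul_of_nonneg_left (by exact_mod_cast h1) hBpos.le
    have h3 := P.hcb
    have h4 : ∀ u ∈ T, 0 ≤ ((if φ' u = false then P.D * (G.E u x : ℤ) else 0) +
        (if φ u = true then P.B * (G.L u x : ℤ) else 0)) := by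
      intro u _
      have : 0 ≤ P.D * (G.E u x : ℤ) := by positivity
      have : 0 ≤ P.B * (G.L u x : ℤ) := by positivity
      split_ifs <;> omega
    have h5 := single_le_sum h4 hu0
    have h6 : P.D ≤ ((if φ' u0 = false then P.D * (G.E u0 x : ℤ) else 0) +
        (if φ u0 = true then P.B * (G.L u0 x : ℤ) else 0)) := by
      rw [if_pos hφ, hE1]
      have : 0 ≤ P.B * (G.L u0 x : ℤ) := by positivity
      split_ifs <;> push_cast <;> omega
    push_cast
    omega
  · have ha : (G.ext2 T φ φ').b x = G.b x - ∑ u ∈ T, (if φ u = true then G.L u x else 0) := by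
      simp only [Net.ext2]; rw [if_neg h]
    rw [ha]
    have h1 : (G.b x : ℤ) ≤ ((G.b x - ∑ u ∈ T, (if φ u = true then G.L u x else 0) : ℕ) : ℤ)
        + ∑ u ∈ T, (if φ u = true then (G.L u x : ℤ) else 0) := by
      have : (∑ u ∈ T, (if φ u = true then (G.L u x : ℤ) else 0)) =
        ((∑ u ∈ T, (if φ u = true then G.L u x else 0) : ℕ) : ℤ) := by
        push_cast; rfl
      rw [this]; omega
    have h2 : ∑ u ∈ T, ((if φ' u = false then P.D * (G.E u x : ℤ) else 0) +
        (if φ u = true then P.B * (G.L u x : ℤ) else 0)) ≥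
        P.B * ∑ u ∈ T, (if φ u = true then (G.L u x : ℤ) else 0) := by
      rw [mul_sum]
      refine sum_le_sum fun u _ => ?_
      have : 0 ≤ P.D * (G.E u x : ℤ) := by positivity
      split_ifs <;> simp <;> omega
    have h3 := mul_le_mul_of_nonneg_left h1 hBpos.le
    rw [mul_add] at h3
    linarith

/-- Items from `T` to `X` at the vertices of `T` coloured `true`. -/
def Net.n1 (G : Net P) (T X : Finset ℕ) (φ : ℕ → Bool) : ℕ :=
  ∑ x ∈ X, ∑ u ∈ T, (if φ u = true then G.E u x + G.L u x else 0)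

def Net.q1 (G : Net P) (T X : Finset ℕ) (φ φ' : ℕ → Bool) : ℤ :=
  ∑ x ∈ X, ∑ u ∈ T, (if φ u = false ∧ φ' u = true then G.w u x else 0)

lemma R_union (G : Net P) {T X : Finset ℕ} (h : Disjoint T X) :
    G.R (T ∪ X) = G.R T + G.R X - 2 * ∑ x ∈ X, ∑ u ∈ T, G.w u x :=
  pot_union G.ws h

lemma ext2_pot (G : Net P) {T X : Finset ℕ} (φ φ' : ℕ → Bool) (h : Disjoint T X)
    (hm : ∀ u ∈ T, ∀ x ∈ X, φ u = true → φ' u = false → G.E u x = 0 ∧ G.L u x = 0) :
    G.R (T ∪ X) - G.R T + 2 * P.K * (G.n1 T X φ : ℤ) + 2 * G.q1 T X φ φ' ≤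
      (G.ext2 T φ φ').R X := by
  have hAB := P.hA
  rw [R_union G h]
  have key : ∀ x ∈ X, G.c x - ∑ u ∈ T, G.w u x +
      P.K * (∑ u ∈ T, (if φ u = true then G.E u x + G.L u x else 0) : ℕ) +
      ∑ u ∈ T, (if φ u = false ∧ φ' u = true then G.w u x else 0) ≤ (G.ext2 T φ φ').c x := by
    intro x hx
    have ha := ext2_a_loss G T φ φ' x
    have hb := ext2_b_loss G T φ φ' x
    have hs : P.K * (∑ u ∈ T, (if φ u = true then G.E u x + G.L u x else 0) : ℕ) +
      ∑ u ∈ T, (if φ u = false ∧ φ' u = true then G.w u x else 0) +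
      ∑ u ∈ T, ((if φ u = true then (P.D - P.K) * (G.E u x : ℤ) else 0) +
        (if φ' u = false then P.A * (G.L u x : ℤ) else 0)) +
      ∑ u ∈ T, ((if φ' u = false then P.D * (G.E u x : ℤ) else 0) +
        (if φ u = true then P.B * (G.L u x : ℤ) else 0)) ≤ ∑ u ∈ T, G.w u x := by
      push_cast
      rw [mul_sum, ← sum_add_distrib, ← sum_add_distrib, ← sum_add_distrib]
      refine sum_le_sum fun u hu => ?_
      have hm' := hm u hu x hx
      cases h1 : φ u <;> cases h2 : φ' u
      · simp [Net.w]; linarith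
      · simp [Net.w]
      · obtain ⟨e1, e2⟩ := hm' h1 h2
        simp [Net.w, e1, e2]
      · simp [Net.w]; rw [hAB]; ring_nf; exact le_refl _
    unfold Net.c
    rw [mul_sub, mul_sub]
    linarith
  have hsum := sum_le_sum key
  rw [sum_add_distrib, sum_add_distrib, sum_sub_distrib, ← mul_sum] at hsum
  have hR : (G.ext2 T φ φ').R X = 2 * ∑ x ∈ X, (G.ext2 T φ φ').c x -
    ∑ u ∈ X, ∑ v ∈ X, G.w u v := rfl
  have hR2 : G.R X = 2 * ∑ x ∈ X, G.c x - ∑ u ∈ X, ∑ v ∈ X, G.w u v := rfl
  rw [hR, hR2]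
  unfold Net.n1 Net.q1
  push_cast at hsum ⊢
  linarith

/-- Gluing a colouring of `T` with a colouring of the rest. -/
lemma glue (G : Net P) {T W : Finset ℕ} (hd : Disjoint T W) {φ ψ : ℕ → Bool}
    {p q : ℕ → ℕ → ℕ} (hφ : G.IsCol T φ p) (hψ : (G.ext2 T φ φ).IsCol W ψ q) :
    ∃ χ r, G.IsCol (T ∪ W) χ r ∧ (∀ u ∈ T, χ u = φ u) ∧ (∀ w ∈ W, χ w = ψ w) ∧
      ∀ u ∈ T, G.load (T ∪ W) χ r u = G.load T φ p u := by
  classical
  set χ : ℕ → Bool := fun x => if x ∈ T then φ x else ψ x with hχ
  set r : ℕ → ℕ → ℕ := fun x y => if x ∈ T then (if y ∈ T then p x y else 0) else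
    (if y ∈ T then (if φ y = ψ x then 0 else G.L x y) else q x y) with hr
  have hT : ∀ u ∈ T, χ u = φ u := fun u hu => by simp [hχ, hu]
  have hWT : ∀ w ∈ W, w ∉ T := fun w hw h => (disjoint_left.mp hd) h hw
  have hW : ∀ w ∈ W, χ w = ψ w := fun w hw => by simp [hχ, hWT w hw]
  -- no edges between equally coloured vertices of T and W
  have hno : ∀ u ∈ T, ∀ w ∈ W, φ u = ψ w → G.E u w = 0 := by
    intro u hu w hw he
    by_contra hE
    have hl := hψ.ld w hw
    cases hc : ψ w
    · rw [hc] at hl he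
      have : (G.ext2 T φ φ).cap false w = 0 := by
        simp only [Net.cap, Net.ext2]
        rw [if_neg (by simp), if_pos ⟨u, hu, he, hE⟩]
      omega
    · rw [hc] at hl he
      have : (G.ext2 T φ φ).cap true w = 0 := by
        simp only [Net.cap, Net.ext2]
        rw [if_pos trivial, if_pos ⟨u, hu, he, hE⟩]
      omega
  have hloadT : ∀ u ∈ T, G.load (T ∪ W) χ r u = G.load T φ p u := by
    intro u hu
    unfold Net.load
    rw [sum_union hd]
    have h1 : ∑ v ∈ T, (r u v + if χ v = χ u then G.E u v else 0) =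
        ∑ v ∈ T, (p u v + if φ v = φ u then G.E u v else 0) := by
      refine sum_congr rfl fun v hv => ?_
      rw [hT u hu, hT v hv]; simp [hr, hu, hv]
    have h2 : ∑ v ∈ W, (r u v + if χ v = χ u then G.E u v else 0) = 0 := by
      refine sum_eq_zero fun v hv => ?_
      rw [hT u hu, hW v hv]
      have h3 : r u v = 0 := by simp [hr, hu, hWT v hv]
      rw [h3]
      split_ifs with h4
      · rw [hno u hu v hv h4.symm]; rfl
      · rfl
    rw [h1, h2]; rfl
  refine ⟨χ, r, ⟨?_, ?_⟩, hT, hW, hloadT⟩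
  · intro u hu
    rcases mem_union.mp hu with hu | hu
    · rw [hloadT u hu, hT u hu]; exact hφ.ld u hu
    · have hl := hψ.ld u hu
      rw [hW u hu]
      have hload : G.load (T ∪ W) χ r u =
          (∑ v ∈ T, (if φ v = ψ u then 0 else G.L u v)) + (G.ext2 T φ φ).load W ψ q u := by
        unfold Net.load
        rw [sum_union hd]
        congr 1
        · refine sum_congr rfl fun v hv => ?_
          rw [hT v hv, hW u hu]
          have h3 : r u v = if φ v = ψ u then 0 else G.L u v := by simp [hr, hWT u hu, hv]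
          rw [h3]
          split_ifs with h4
          · rw [G.Es u v, hno v hv u hu h4]
          · rfl
        · refine sum_congr rfl fun v hv => ?_
          rw [hW v hv, hW u hu]
          have h3 : r u v = q u v := by simp [hr, hWT u hu, hWT v hv]
          rw [h3]; rfl
      rw [hload]
      cases hc : ψ u
      · rw [hc] at hl
        simp only [Net.cap, Net.ext2] at hl ⊢
        have e1 : ∑ v ∈ T, (if φ v = false then 0 else G.L u v) =
            ∑ v ∈ T, (if φ v = true then G.L v u else 0) := by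
          refine sum_congr rfl fun v _ => ?_
          cases φ v <;> simp [G.Ls u v]
        rw [e1]
        rw [if_neg (by simp)] at hl ⊢
        split_ifs at hl
        · omega
        · unfold Net.load at hl ⊢
          simp only at hl ⊢
          omega
      · rw [hc] at hl
        simp only [Net.cap, Net.ext2] at hl ⊢
        have e1 : ∑ v ∈ T, (if φ v = true then 0 else G.L u v) =
            ∑ v ∈ T, (if φ v = false then G.L v u else 0) := by
          refine sum_congr rfl fun v _ => ?_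
          cases φ v <;> simp [G.Ls u v]
        rw [e1]
        rw [if_pos trivial] at hl ⊢
        split_ifs at hl
        · omega
        · unfold Net.load at hl ⊢
          simp only at hl ⊢
          omega
  · intro u hu v hv hne
    rcases mem_union.mp hu with hu | hu <;> rcases mem_union.mp hv with hv | hv
    · rw [hT u hu, hT v hv] at hne
      have := hφ.lk u hu v hv hne
      simpa [hr, hu, hv] using this
    · rw [hT u hu, hW v hv] at hne
      have e1 : r v u = G.L v u := by simp [hr, hu, hWT v hv, hne]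
      rw [e1, G.Ls u v]; omega
    · rw [hW u hu, hT v hv] at hne
      have e1 : r u v = G.L u v := by simp [hr, hv, hWT u hu, hne.symm]
      rw [e1]; omega
    · rw [hW u hu, hW v hv] at hne
      have := hψ.lk u hu v hv hne
      have e1 : r u v = q u v := by simp [hr, hWT u hu, hWT v hv]
      have e2 : r v u = q v u := by simp [hr, hWT u hu, hWT v hv]
      rw [e1, e2]; exact this

end Pool.Agent.K1H47.Defect
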