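import Pool.Agent.K1H47.Defect.Star

/-! No minimal counterexample. -/

namespace Pool.Agent.K1H47.Defect

open Finset

variable {P : Par} {G : Net P} {V T : Finset ℕ} {φ φ' : ℕ → Bool} {p p' : ℕ → ℕ → ℕ}

lemma es_lt {Y : Finset ℕ} (hY : Y ⊆ V) {w w' : ℕ} (hw : w ∈ V) (hwY : w ∉ Y) (hw' : w' ∈ V)
    (hE : G.E w w' = 1) : G.es Y < G.es V := by
  unfold Net.es
  have h1 : ∑ u ∈ Y, ∑ v ∈ Y, G.E u v ≤ ∑ u ∈ Y, ∑ v ∈ V, G.E u v :=
    sum_le_sum fun u _ => sum_le_sum_of_subset hY
  have h2 : insert w Y ⊆ V := insert_subset hw hY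
  have h3 : ∑ u ∈ insert w Y, ∑ v ∈ V, G.E u v ≤ ∑ u ∈ V, ∑ v ∈ V, G.E u v :=
    sum_le_sum_of_subset h2
  rw [sum_insert hwY] at h3
  have h4 : G.E w w' ≤ ∑ v ∈ V, G.E w v :=
    single_le_sum (f := fun v => G.E w v) (fun v _ => Nat.zero_le _) hw'
  omega

theorem MinCex.low_card (M : MinCex G V) {Y : Finset ℕ} (hY : Y ⊆ V) {w w' : ℕ} (hw : w ∈ V)
    (hwY : w ∉ Y) (hw' : w' ∈ V) (hE : G.E w w' = 1) (hYne : Y.Nonempty)
    (hlow : G.R Y ≤ 2 * P.A) : Y.card = 1 := by
  by_contra h
  have hpos := hYne.card_pos
  have hYV : Y ≠ V := fun h => hwY (h ▸ hw)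
  have h1 := (M.low_big hY hYV (by omega) hlow).2
  have h2 := es_lt (G := G) hY hw hwY hw' hE
  omega

/-- Every edge has an end which is a `(1,1)`-vertex with at most two items. -/
theorem MinCex.edge_end (M : MinCex G V) {x y : ℕ} (hx : x ∈ V) (hy : y ∈ V)
    (hE : G.E x y = 1) : (G.a x = 1 ∧ G.b x = 1 ∧ G.m V {x} x ≤ 2) ∨
      (G.a y = 1 ∧ G.b y = 1 ∧ G.m V {y} y ≤ 2) := by
  by_contra hcon
  push Not at hcon
  obtain ⟨hcx, hcy⟩ := hcon
  have hxy : x ≠ y := by
    rintro rfl; rw [G.E0] at hE; exact absurd hE (by norm_num)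
  have hA := P.hA
  have hB := P.hB
  have hD := P.hD
  have hhx : ∀ Y ⊆ V, x ∈ Y → y ∉ Y → 2 * P.A < G.R Y := by
    intro Y hY hxY hyY
    by_contra hlow
    push Not at hlow
    have h1 := M.low_card hY hy hyY hx (by rw [G.Es]; exact hE) ⟨x, hxY⟩ hlow
    obtain ⟨z, rfl⟩ := card_eq_one.mp h1
    have hxz := mem_singleton.mp hxY
    subst hxz
    obtain ⟨h2, h3, h4⟩ := M.low_single hx (fun h => hyY (h ▸ hy)) hlow
    exact absurd h4 (not_le.mpr (hcx h2 h3))
  have hhy : ∀ Y ⊆ V, y ∈ Y → x ∉ Y → 2 * P.A < G.R Y := by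
    intro Y hY hyY hxY
    by_contra hlow
    push Not at hlow
    have h1 := M.low_card hY hx hxY hy hE ⟨y, hyY⟩ hlow
    obtain ⟨z, rfl⟩ := card_eq_one.mp h1
    have hyz := mem_singleton.mp hyY
    subst hyz
    obtain ⟨h2, h3, h4⟩ := M.low_single hy (fun h => hxY (h ▸ hx)) hlow
    exact absurd h4 (not_le.mpr (hcy h2 h3))
  set pa : ℕ → ℕ := fun v => if v = x ∨ v = y then 1 else 0 with hpa
  have hg : ((G.remEdge x y).red pa pa).Good V := by
    intro S hS hSne
    have h1 := remEdge_R G hxy hE S
    have h2 := red_R (G.remEdge x y) pa pa S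
    have h3 : ∑ v ∈ S, (P.A * (pa v : ℤ) + P.B * (pa v : ℤ)) ≤
        (if x ∈ S then P.A + P.B else 0) + (if y ∈ S then P.A + P.B else 0) := by
      have hpt : ∀ v ∈ S, (P.A * (pa v : ℤ) + P.B * (pa v : ℤ)) ≤
          (if v = x then P.A + P.B else 0) + (if v = y then P.A + P.B else 0) := by
        intro v _
        have := P.A_pos
        simp only [hpa]
        by_cases h1 : v = x <;> by_cases h2 : v = y <;> simp [h1, h2] <;> split_ifs <;> linarith
      refine (sum_le_sum hpt).trans ?_
      rw [sum_add_distrib, sum_ite_eq', sum_ite_eq']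
    by_cases hxS : x ∈ S <;> by_cases hyS : y ∈ S
    · rw [if_pos ⟨hxS, hyS⟩] at h1
      rw [if_pos hxS, if_pos hyS] at h3
      have := M.good S hS hSne
      linarith
    · rw [if_neg (fun h => hyS h.2)] at h1
      rw [if_pos hxS, if_neg hyS] at h3
      have := hhx S hS hxS hyS
      linarith
    · rw [if_neg (fun h => hxS h.1)] at h1
      rw [if_neg hxS, if_pos hyS] at h3
      have := hhy S hS hyS hxS
      linarith
    · rw [if_neg (fun h => hxS h.1)] at h1
      rw [if_neg hxS, if_neg hyS] at h3
      have := M.good S hS hSne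
      linarith
  obtain ⟨χ, r, h⟩ := M.edge ((G.remEdge x y).red pa pa) V rfl
    (remEdge_es G hx hy hE) hg
  obtain ⟨h1, h2⟩ := red_col h
  refine M.unc ⟨χ, r, addEdge h1 hx hy hxy fun _ => ⟨?_, ?_⟩⟩
  · have := h2 x hx
    have e : (if χ x = true then pa x else pa x) = 1 := by
      simp only [hpa]; simp
    rw [e] at this; exact this
  · have := h2 y hy
    have e : (if χ y = true then pa y else pa y) = 1 := by
      simp only [hpa]; simp
    rw [e] at this; exact this

lemma R_pair (G : Net P) {x u : ℕ} (hxu : x ≠ u) (hax : G.a x = 1) (hbx : G.b x = 1)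
    (hau : G.a u = 1) (hbu : G.b u = 1) :
    G.R {x, u} = 4 * P.A - 2 * (P.D * (G.E x u : ℤ) + P.A * (G.L x u : ℤ)) := by
  have h1 : G.R {x, u} = _ := pot_insert (c := G.c) G.ws (show x ∉ ({u} : Finset ℕ) by simpa using hxu)
  have h2 : pot G.c G.w {u} = 2 * P.A := R_single_11 G hau hbu
  rw [h1, h2, Net.w0]
  simp only [sum_singleton, Net.w, Net.c, hax, hbx]
  push_cast; ring

/-- Such a vertex has no links. -/
theorem MinCex.no_link (M : MinCex G V) {x y u : ℕ} (hx : x ∈ V) (hy : y ∈ V)
    (hE : G.E x y = 1) (ha : G.a x = 1) (hb : G.b x = 1) (hm : G.m V {x} x ≤ 2)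
    (hu : u ∈ V) (hL : 1 ≤ G.L x u) : False := by
  have hA := P.hA
  have hB := P.hB
  have hD := P.hD
  have hRV := M.RV
  have hxy : x ≠ y := by
    rintro rfl; rw [G.E0] at hE; exact absurd hE (by norm_num)
  have hxu : x ≠ u := by
    rintro rfl; rw [G.L0] at hL; omega
  have hyW : y ∈ V \ {x} := mem_sdiff.mpr ⟨hy, fun h => hxy (mem_singleton.mp h).symm⟩
  have huW : u ∈ V \ {x} := mem_sdiff.mpr ⟨hu, fun h => hxu (mem_singleton.mp h).symm⟩
  unfold Net.m at hm
  rw [sum_add_distrib] at hm
  have hE1 : G.E x y ≤ ∑ w ∈ V \ {x}, G.E x w :=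
    single_le_sum (f := fun w => G.E x w) (fun _ _ => Nat.zero_le _) hyW
  have hL1 : G.L x u ≤ ∑ w ∈ V \ {x}, G.L x w :=
    single_le_sum (f := fun w => G.L x w) (fun _ _ => Nat.zero_le _) huW
  have hE0 : ∀ w ∈ V, w ≠ y → G.E x w = 0 := by
    intro w hw hwy
    by_cases hwx : w = x
    · rw [hwx, G.E0]
    · have hwW : w ∈ (V \ {x}).erase y :=
        mem_erase.mpr ⟨hwy, mem_sdiff.mpr ⟨hw, fun h => hwx (mem_singleton.mp h)⟩⟩
      have h1 := add_sum_erase (V \ {x}) (fun w => G.E x w) hyW
      have h2 : G.E x w ≤ ∑ w ∈ (V \ {x}).erase y, G.E x w :=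
        single_le_sum (f := fun w => G.E x w) (fun _ _ => Nat.zero_le _) hwW
      omega
  have hL0 : ∀ w ∈ V, w ≠ u → G.L x w = 0 := by
    intro w hw hwy
    by_cases hwx : w = x
    · rw [hwx, G.L0]
    · have hwW : w ∈ (V \ {x}).erase u :=
        mem_erase.mpr ⟨hwy, mem_sdiff.mpr ⟨hw, fun h => hwx (mem_singleton.mp h)⟩⟩
      have h1 := add_sum_erase (V \ {x}) (fun w => G.L x w) huW
      have h2 : G.L x w ≤ ∑ w ∈ (V \ {x}).erase u, G.L x w :=
        single_le_sum (f := fun w => G.L x w) (fun _ _ => Nat.zero_le _) hwW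
      omega
  have hLu : G.L x u = 1 := by omega
  -- sets containing `u` but not `x` are high
  have hhigh : ∀ Y ⊆ V, u ∈ Y → x ∉ Y → 2 * P.A < G.R Y := by
    intro Y hY huY hxY
    by_contra hlow
    push Not at hlow
    have h1 := M.low_card hY hx hxY hy hE ⟨u, huY⟩ hlow
    obtain ⟨z, rfl⟩ := card_eq_one.mp h1
    have huz := mem_singleton.mp huY
    subst huz
    obtain ⟨h2, h3, _⟩ := M.low_single hu (fun h => hxY (h ▸ hx)) hlow
    have hR := R_pair G hxu ha hb h2 h3
    have hsub : {x, u} ⊆ V := by
      intro v hv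
      rcases mem_insert.mp hv with h | h
      · exact h ▸ hx
      · exact (mem_singleton.mp h) ▸ hu
    by_cases huy : u = y
    · subst huy
      rw [hE, hLu] at hR
      have := M.good _ hsub ⟨x, mem_insert_self _ _⟩
      have := P.A_pos
      push_cast at hR
      linarith
    · rw [hE0 u hu huy, hLu] at hR
      have h5 := M.low_card hsub hy (w' := x) ?_ hx (by rw [G.Es]; exact hE)
        ⟨x, mem_insert_self _ _⟩ (by rw [hR]; push_cast; linarith)
      · rw [card_pair hxu] at h5; omega
      · intro h
        rcases mem_insert.mp h with h | h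
        · exact hxy h.symm
        · exact huy (mem_singleton.mp h).symm
  have hTV : V.erase x ≠ V := by
    intro h
    have := notMem_erase x V
    rw [h] at this; exact this hx
  have key : ∀ Y ⊆ V.erase x, Y.Nonempty → -2 * P.B < G.R Y - 2 * ∑ v ∈ Y,
      (P.A * ((if v = u then 1 else 0 : ℕ) : ℤ) + P.B * ((if v = u then 1 else 0 : ℕ) : ℤ)) := by
    intro Y hY hYne
    have hxY : x ∉ Y := fun h => notMem_erase x V (hY h)
    have hYV : Y ⊆ V := hY.trans (erase_subset _ _)
    have e : ∑ v ∈ Y, (P.A * ((if v = u then 1 else 0 : ℕ) : ℤ) +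
        P.B * ((if v = u then 1 else 0 : ℕ) : ℤ)) = if u ∈ Y then P.A + P.B else 0 := by
      rw [← sum_ite_eq' Y u (fun _ => P.A + P.B)]
      refine sum_congr rfl fun v _ => ?_
      split_ifs <;> simp
    rw [e]
    split_ifs with huY
    · have := hhigh Y hYV huY hxY
      linarith
    · have := M.good Y hYV hYne
      linarith
  obtain ⟨φ, p, hc, hres⟩ := M.reserve (erase_subset x V) hTV
    (fun v => if v = u then 1 else 0) (fun v => if v = u then 1 else 0) key
  have huT : u ∈ V.erase x := mem_erase.mpr ⟨hxu.symm, hu⟩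
  have hyT : y ∈ V.erase x := mem_erase.mpr ⟨hxy.symm, hy⟩
  refine M.unc ⟨fun v => if v = x then !φ y else φ v, fun v w => if v = x then 0 else
    if w = x then (if v = u then 1 else 0) else p v w, fun v hv => ?_, fun v hv w hw hne => ?_⟩
  · by_cases hvx : v = x
    · subst hvx
      have hld : G.load V (fun w => if w = v then !φ y else φ w) (fun w z => if w = v then 0 else
          if z = v then (if w = u then 1 else 0) else p w z) v = 0 := by
        unfold Net.load
        refine sum_eq_zero fun w hw => ?_
        simp only [if_true, zero_add]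
        by_cases hwy : w = y
        · subst hwy
          rw [if_neg hxy.symm, if_neg]
          cases φ w <;> simp
        · rw [hE0 w hw hwy]; simp
      rw [hld]
      unfold Net.cap
      split_ifs <;> omega
    · have hvT : v ∈ V.erase x := mem_erase.mpr ⟨hvx, hv⟩
      have hld : G.load V (fun w => if w = x then !φ y else φ w) (fun w z => if w = x then 0 else
          if z = x then (if w = u then 1 else 0) else p w z) v =
          (if v = u then 1 else 0) + G.load (V.erase x) φ p v := by
        unfold Net.load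
        rw [← add_sum_erase V _ hx]
        congr 1
        · simp only [if_true]
          rw [if_neg hvx]
          have : (if (!φ y) = (if v = x then !φ y else φ v) then G.E v x else 0) = 0 := by
            rw [if_neg hvx]
            by_cases hvy : v = y
            · subst hvy
              rw [if_neg]; cases φ v <;> simp
            · rw [G.Es, hE0 v hv hvy]; simp
          rw [this]; rfl
        · refine sum_congr rfl fun w hw => ?_
          have hwx : w ≠ x := ne_of_mem_erase hw
          simp only [if_neg hvx, if_neg hwx]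
      rw [hld]
      simp only [if_neg hvx]
      have := hres v hvT
      have e : (if φ v = true then (if v = u then 1 else 0) else (if v = u then 1 else 0)) =
        (if v = u then 1 else 0 : ℕ) := by split_ifs <;> rfl
      rw [e] at this
      omega
  · by_cases hvx : v = x
    · subst hvx
      by_cases hwv : w = v
      · subst hwv; rw [G.L0]; exact Nat.zero_le _
      · by_cases hwu : w = u
        · subst hwu
          rw [hLu]; simp [hwv]
        · rw [hL0 w hw hwu]; exact Nat.zero_le _
    · by_cases hwx : w = x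
      · subst hwx
        by_cases hvu : v = u
        · subst hvu
          rw [G.Ls, hLu]; simp [hvx]
        · rw [G.Ls, hL0 v hv hvu]; exact Nat.zero_le _
      · simp only [if_neg hvx, if_neg hwx] at hne ⊢
        exact hc.lk v (mem_erase.mpr ⟨hvx, hv⟩) w (mem_erase.mpr ⟨hwx, hw⟩) hne

/-- There is no minimal counterexample. -/
theorem MinCex.contra (M : MinCex G V) : False := by
  classical
  have hA := P.hA
  have hB := P.hB
  have hK := P.hK
  have hD := P.hD
  have hRV := M.RV
  have hAp := P.A_pos
  set Z := V.filter fun v => G.a v = 1 ∧ G.b v = 1 ∧ (∀ w ∈ V, G.L v w = 0) with hZ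
  have hEZ : ∀ v ∈ V, ∀ w ∈ V, G.E v w ≠ 0 → v ∈ Z ∨ w ∈ Z := by
    intro v hv w hw hE
    have hE1 : G.E v w = 1 := by have := G.E1 v w; omega
    rcases M.edge_end hv hw hE1 with ⟨h1, h2, h3⟩ | ⟨h1, h2, h3⟩
    · left
      rw [hZ, mem_filter]
      refine ⟨hv, h1, h2, fun u hu => ?_⟩
      by_contra hL
      exact M.no_link hv hw hE1 h1 h2 h3 hu (by omega)
    · right
      rw [hZ, mem_filter]
      refine ⟨hw, h1, h2, fun u hu => ?_⟩
      by_contra hL
      exact M.no_link hw hv (by rw [G.Es]; exact hE1) h1 h2 h3 hu (by omega)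
  have hZZ : ∀ v ∈ Z, ∀ w ∈ Z, G.E v w = 0 := by
    intro v hv w hw
    rw [hZ, mem_filter] at hv hw
    by_contra hE
    have hE1 : G.E v w = 1 := by have := G.E1 v w; omega
    have hvw : v ≠ w := by
      rintro rfl; exact hE (G.E0 v)
    have hR := R_pair G hvw hv.2.1 hv.2.2.1 hw.2.1 hw.2.2.1
    rw [hE1, hv.2.2.2 w hw.1] at hR
    have hsub : {v, w} ⊆ V := by
      intro z hz
      rcases mem_insert.mp hz with h | h
      · exact h ▸ hv.1
      · exact (mem_singleton.mp h) ▸ hw.1
    have := M.good _ hsub ⟨v, mem_insert_self _ _⟩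
    push_cast at hR
    linarith
  have hbpos : ∀ v ∈ V, v ∉ Z → 1 ≤ G.b v := by
    intro v hv hvZ
    by_contra hb
    have hb0 : G.b v = 0 := by omega
    have hRv : G.R {v} = 2 * (P.A * (G.a v : ℤ) - P.B) := by
      unfold Net.R
      rw [pot_singleton, Net.w0, Net.c, hb0]; push_cast; ring
    by_cases hex : ∃ y ∈ V, G.E v y ≠ 0
    · obtain ⟨y, hy, hE⟩ := hex
      have hE1 : G.E v y = 1 := by have := G.E1 v y; omega
      have hvy : v ≠ y := by
        rintro rfl; exact hE (G.E0 v)
      have hyZ : y ∈ Z := (hEZ v hv y hy hE).resolve_left hvZ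
      rw [hZ, mem_filter] at hyZ
      obtain ⟨_, hay, hby, _⟩ := hyZ
      set pa : ℕ → ℕ := fun w => if w = y then 1 else 0 with hpa
      have hg : ((G.remEdge v y).red pa (fun _ => 0)).Good V := by
        intro S hS hSne
        have h1 := remEdge_R G hvy hE1 S
        have h2 := red_R (G.remEdge v y) pa (fun _ => 0) S
        have h3 : ∑ w ∈ S, (P.A * (pa w : ℤ) + P.B * (((fun _ => 0 : ℕ → ℕ) w : ℕ) : ℤ)) =
            if y ∈ S then P.A else 0 := by
          rw [← sum_ite_eq' S y (fun _ => P.A)]
          refine sum_congr rfl fun w _ => ?_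
          simp only [hpa]
          split_ifs <;> simp
        rw [h3] at h2
        by_cases hyS : y ∈ S <;> by_cases hvS : v ∈ S
        · rw [if_pos ⟨hvS, hyS⟩] at h1
          rw [if_pos hyS] at h2
          have := M.good S hS hSne
          linarith
        · rw [if_neg (fun h => hvS h.1)] at h1
          rw [if_pos hyS] at h2
          have := M.S2 hS hSne (fun h => hvS (h ▸ hv))
          linarith
        · rw [if_neg (fun h => hyS h.2)] at h1
          rw [if_neg hyS] at h2
          have := M.good S hS hSne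
          linarith
        · rw [if_neg (fun h => hyS h.2)] at h1
          rw [if_neg hyS] at h2
          have := M.good S hS hSne
          linarith
      obtain ⟨χ, r, h⟩ := M.edge ((G.remEdge v y).red pa (fun _ => 0)) V rfl
        (remEdge_es G hv hy hE1) hg
      have hχv : χ v = true := by
        by_contra hne
        have hf : χ v = false := by simpa using hne
        have := h.ld v hv
        rw [hf] at this
        simp [Net.cap, Net.red, Net.remEdge, hb0] at this
      have hχy : χ y = false := by
        by_contra hne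
        have hf : χ y = true := by simpa using hne
        have := h.ld y hy
        rw [hf] at this
        simp [Net.cap, Net.red, Net.remEdge, hay, hpa] at this
      obtain ⟨h1, _⟩ := red_col h
      refine M.unc ⟨χ, r, addEdge h1 hv hy hvy fun heq => ?_⟩
      rw [hχv, hχy] at heq; exact Bool.noConfusion heq
    · push Not at hex
      by_cases hexL : ∃ u ∈ V, G.L v u ≠ 0
      · obtain ⟨u, hu, hL⟩ := hexL
        have hL1 : 1 ≤ G.L v u := by omega
        have hvu : v ≠ u := by
          rintro rfl; exact hL (G.L0 v)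
        set qa : ℕ → ℕ := fun w => if w = u then 1 else 0 with hqa
        have hg : ((G.remLink v u).red (fun _ => 0) qa).Good V := by
          intro S hS hSne
          have h1 := remLink_R G hvu hL1 S
          have h2 := red_R (G.remLink v u) (fun _ => 0) qa S
          have h3 : ∑ w ∈ S, (P.A * (((fun _ => 0 : ℕ → ℕ) w : ℕ) : ℤ) + P.B * (qa w : ℤ)) =
              if u ∈ S then P.B else 0 := by
            rw [← sum_ite_eq' S u (fun _ => P.B)]
            refine sum_congr rfl fun w _ => ?_
            simp only [hqa]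
            split_ifs <;> simp
          rw [h3] at h2
          by_cases huS : u ∈ S <;> by_cases hvS : v ∈ S
          · rw [if_pos ⟨hvS, huS⟩] at h1
            rw [if_pos huS] at h2
            have := M.good S hS hSne
            linarith
          · rw [if_neg (fun h => hvS h.1)] at h1
            rw [if_pos huS] at h2
            have := M.S2 hS hSne (fun h => hvS (h ▸ hv))
            linarith
          · rw [if_neg (fun h => huS h.2)] at h1
            rw [if_neg huS] at h2
            have := M.good S hS hSne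
            linarith
          · rw [if_neg (fun h => huS h.2)] at h1
            rw [if_neg huS] at h2
            have := M.good S hS hSne
            linarith
        obtain ⟨χ, r, h⟩ := M.link ((G.remLink v u).red (fun _ => 0) qa) V rfl rfl
          (remLink_ls G hv hu hL1) hg
        have hχv : χ v = true := by
          by_contra hne
          have hf : χ v = false := by simpa using hne
          have := h.ld v hv
          rw [hf] at this
          simp [Net.cap, Net.red, Net.remLink, hb0] at this
        obtain ⟨h1, h2⟩ := red_col h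
        cases hχu : χ u
        · refine M.unc (addLink (s := u) (t := v) h1 (Or.inr ⟨rfl, rfl⟩) ?_)
          have h3 := h2 u hu
          have e : (G.remLink v u).cap (χ u) u = G.cap (χ u) u := rfl
          rw [e] at h3
          rw [hχu] at h3 ⊢
          simpa [hqa] using h3
        · exact M.unc ⟨χ, r, addLink_same h1 (hχv.trans hχu.symm)⟩
      · push Not at hexL
        have hgv := M.good {v} (singleton_subset_iff.mpr hv) (singleton_nonempty v)
        rw [hRv] at hgv
        have ha : 0 < G.a v := by
          rcases Nat.eq_zero_or_pos (G.a v) with h | h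
          · rw [h] at hgv; push_cast at hgv; linarith
          · exact h
        have hcol1 : G.IsCol {v} (fun _ => true) (fun _ _ => 0) := by
          refine ⟨fun w hw => ?_, fun w _ z _ hne => absurd rfl hne⟩
          have hw' := mem_singleton.mp hw
          subst hw'
          unfold Net.load Net.cap
          simp [G.E0, ha]
        obtain ⟨X, hX, hXne, hR⟩ := M.n1ext (singleton_subset_iff.mpr hv)
          (singleton_nonempty v) hcol1
        have hd : Disjoint {v} X := disjoint_of_subset_right hX disjoint_sdiff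
        have h1 := R_union G hd
        have h2 : ∑ x ∈ X, ∑ u ∈ {v}, G.w u x = 0 := by
          refine sum_eq_zero fun x hx => ?_
          have hxV : x ∈ V := (mem_sdiff.mp (hX hx)).1
          rw [sum_singleton]
          simp [Net.w, hex x hxV, hexL x hxV]
        rw [h2] at h1
        have h3 := M.good X (hX.trans sdiff_subset) hXne
        have h4 : (0 : ℤ) ≤ 2 * P.K * (G.n1 {v} X (fun _ => true) : ℤ) := by positivity
        linarith
  refine M.unc ⟨fun v => decide (v ∈ Z), fun _ _ => 0, fun v hv => ?_, fun v hv w hw hne => ?_⟩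
  · have hld : G.load V (fun v => decide (v ∈ Z)) (fun _ _ => 0) v = 0 := by
      unfold Net.load
      refine sum_eq_zero fun w hw => ?_
      by_cases hvZ : v ∈ Z <;> by_cases hwZ : w ∈ Z
      · rw [hZZ v hvZ w hwZ]; simp
      · simp [hvZ, hwZ]
      · simp [hvZ, hwZ]
      · have : G.E v w = 0 := by
          by_contra h
          rcases hEZ v hv w hw h with h | h
          · exact hvZ h
          · exact hwZ h
        rw [this]; simp
    rw [hld]
    unfold Net.cap
    by_cases hvZ : v ∈ Z
    · simp only [hvZ, decide_true, if_true]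
      rw [hZ, mem_filter] at hvZ
      omega
    · have := hbpos v hv hvZ
      simp [hvZ]; omega
  · have hkey : ∀ a ∈ V, ∀ b ∈ V, a ∈ Z → G.L a b = 0 := by
      intro a _ b hb haZ
      rw [hZ, mem_filter] at haZ
      exact haZ.2.2.2 b hb
    by_cases hvZ : v ∈ Z
    · rw [hkey v hv w hw hvZ]
    · by_cases hwZ : w ∈ Z
      · rw [G.Ls, hkey w hw v hv hwZ]
      · simp [hvZ, hwZ] at hne

/-- Main theorem on nets. -/
theorem colorable_of_good (G : Net P) (V : Finset ℕ) (h : G.Good V) : G.Colorable V := by
  by_contra hu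
  obtain ⟨H, U, M⟩ := exists_minCex h hu
  exact M.contra

end Pool.Agent.K1H47.Defect
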