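import Pool.Agent.K1H47.Defect.Final

/-! Transfer to finite simple graphs. -/

namespace Pool.Agent.K1H47.Defect

open Finset

/-- The parameters for `d₁ = i`, `d₂ = j`. -/
def par (i j : ℕ) (hi : 2 ≤ i) (hij : 3 * i + 2 ≤ 2 * j) : Par where
  A := (j : ℤ) + 2
  B := (i : ℤ) + 2
  D := ((i : ℤ) + 2) * ((j : ℤ) + 1)
  K := (j : ℤ) - i
  ca := i + 1
  cb := j + 1
  hA := by ring
  hB := by positivity
  hK := by omega
  hD := by
    have h1 : (2 : ℤ) ≤ i := by exact_mod_cast hi
    have h2 : (4 : ℤ) ≤ j := by omega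
    nlinarith [mul_nonneg (show (0 : ℤ) ≤ (i : ℤ) - 2 by linarith)
      (show (0 : ℤ) ≤ (j : ℤ) - 4 by linarith)]
  hBK := by omega
  hca := by push_cast; ring_nf; exact le_refl _
  hcb := by push_cast; ring_nf; exact le_refl _
  hca1 := by omega
  hcb1 := by omega

variable {V : Type*} [Fintype V] [DecidableEq V]

/-- A fixed embedding into the natural numbers. -/
noncomputable def emb (V : Type*) [Fintype V] : V ↪ ℕ :=
  (Fintype.equivFin V).toEmbedding.trans Fin.valEmbedding

open Classical in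
/-- The net of a graph. -/
noncomputable def gnet (P : Par) (G : SimpleGraph V) : Net P where
  a _ := P.ca
  b _ := P.cb
  E u v := if ∃ x y, emb V x = u ∧ emb V y = v ∧ G.Adj x y then 1 else 0
  L _ _ := 0
  Es u v := by
    have : (∃ x y, emb V x = u ∧ emb V y = v ∧ G.Adj x y) ↔
        (∃ x y, emb V x = v ∧ emb V y = u ∧ G.Adj x y) := by
      constructor
      · rintro ⟨x, y, h1, h2, h3⟩; exact ⟨y, x, h2, h1, h3.symm⟩
      · rintro ⟨x, y, h1, h2, h3⟩; exact ⟨y, x, h2, h1, h3.symm⟩
    simp only [this]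
  Ls _ _ := rfl
  E0 u := by
    rw [if_neg]
    rintro ⟨x, y, h1, h2, h3⟩
    have : x = y := (emb V).injective (h1.trans h2.symm)
    subst this
    exact G.loopless.irrefl x h3
  L0 _ := rfl
  E1 u v := by split_ifs <;> omega
  Ea _ _ _ := le_refl _
  Eb _ _ _ := le_refl _

lemma gnet_E (P : Par) (G : SimpleGraph V) [DecidableRel G.Adj] (x y : V) :
    (gnet P G).E (emb V x) (emb V y) = if G.Adj x y then 1 else 0 := by
  unfold gnet
  simp only
  by_cases h : G.Adj x y
  · rw [if_pos ⟨x, y, rfl, rfl, h⟩, if_pos h]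
  · rw [if_neg, if_neg h]
    rintro ⟨x', y', h1, h2, h3⟩
    rw [(emb V).injective h1, (emb V).injective h2] at h3
    exact h h3

lemma gnet_load (P : Par) (G : SimpleGraph V) [DecidableRel G.Adj] (S : Finset V)
    (φ : ℕ → Bool) (p : ℕ → ℕ → ℕ) (x : V) :
    (gnet P G).load (S.map (emb V)) φ p (emb V x) =
      ∑ y ∈ S, p (emb V x) (emb V y) +
      (S.filter fun y => G.Adj x y ∧ φ (emb V y) = φ (emb V x)).card := by
  unfold Net.load
  rw [sum_map, sum_add_distrib, card_filter]
  congr 1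
  refine sum_congr rfl fun y _ => ?_
  rw [gnet_E]
  by_cases h1 : G.Adj x y <;> by_cases h2 : φ (emb V y) = φ (emb V x) <;> simp [h1, h2]

lemma gnet_R_univ (P : Par) (G : SimpleGraph V) [DecidableRel G.Adj] :
    (gnet P G).R (univ.map (emb V)) =
      2 * ((P.A * (P.ca : ℤ) + P.B * ((P.cb : ℤ) - 1)) * (Fintype.card V : ℤ)) -
      2 * (P.D * (G.edgeFinset.card : ℤ)) := by
  unfold Net.R pot
  rw [sum_map, sum_map]
  have h1 : ∀ x : V, (gnet P G).c (emb V x) = P.A * (P.ca : ℤ) + P.B * ((P.cb : ℤ) - 1) :=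
    fun x => rfl
  have h2 : ∀ x : V, ∑ v ∈ univ.map (emb V), (gnet P G).w (emb V x) v =
      P.D * (G.degree x : ℤ) := by
    intro x
    rw [sum_map]
    have h3 : ∀ y : V, (gnet P G).w (emb V x) (emb V y) =
        P.D * (if G.Adj x y then 1 else 0) := by
      intro y
      unfold Net.w
      rw [gnet_E]
      have : (gnet P G).L (emb V x) (emb V y) = 0 := rfl
      rw [this]
      split_ifs <;> simp
    simp only [h3]
    rw [← mul_sum]
    congr 1
    rw [sum_boole, ← G.card_neighborFinset_eq_degree, G.neighborFinset_eq_filter]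
  simp only [h1, h2]
  rw [sum_const, ← mul_sum, nsmul_eq_mul, card_univ]
  have h4 := G.sum_degrees_eq_twice_card_edges
  have h5 : (∑ x : V, (G.degree x : ℤ)) = 2 * (G.edgeFinset.card : ℤ) := by
    exact_mod_cast h4
  rw [h5]; ring

/-- If every proper induced subgraph has a colouring and the edge bound holds, there is a
colouring of the whole graph. -/
theorem graph_main (i j : ℕ) (hi : 2 ≤ i) (hij : 3 * i + 2 ≤ 2 * j) (G : SimpleGraph V)
    [DecidableRel G.Adj]
    (hprop : ∀ S : Finset V, S ≠ univ → ∃ c : V → Bool, ∀ v ∈ S,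
      (S.filter fun w => G.Adj v w ∧ c w = c v).card ≤ if c v = true then i else j)
    (hedge : (((i : ℤ) + 2) * ((j : ℤ) + 1)) * (G.edgeFinset.card : ℤ) <
      (2 * (((i : ℤ) + 2) * ((j : ℤ) + 1)) - ((j : ℤ) + 2)) * (Fintype.card V : ℤ) +
        ((i : ℤ) + 2)) :
    ∃ c : V → Bool, ∀ v : V,
      (univ.filter fun w => G.Adj v w ∧ c w = c v).card ≤ if c v = true then i else j := by
  set P := par i j hi hij with hP
  set N := gnet P G with hN
  set U := univ.map (emb V) with hU
  have hRU : -2 * P.B < N.R U := by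
    rw [hN, hU, gnet_R_univ]
    have e1 : P.A = (j : ℤ) + 2 := rfl
    have e2 : P.B = (i : ℤ) + 2 := rfl
    have e3 : P.D = ((i : ℤ) + 2) * ((j : ℤ) + 1) := rfl
    have e4 : (P.ca : ℤ) = (i : ℤ) + 1 := by
      have : P.ca = i + 1 := rfl
      rw [this]; push_cast; rfl
    have e5 : (P.cb : ℤ) = (j : ℤ) + 1 := by
      have : P.cb = j + 1 := rfl
      rw [this]; push_cast; rfl
    rw [e1, e2, e3, e4, e5]
    have e6 : (((j : ℤ) + 2) * ((i : ℤ) + 1) + ((i : ℤ) + 2) * ((j : ℤ) + 1 - 1)) =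
        2 * (((i : ℤ) + 2) * ((j : ℤ) + 1)) - ((j : ℤ) + 2) := by ring
    rw [e6]
    linarith
  -- colourings of proper subsets
  have hcolS : ∀ S ⊆ U, S ≠ U → N.Colorable S := by
    intro S hS hSU
    obtain ⟨S', _, rfl⟩ := subset_map_iff.mp hS
    have hS' : S' ≠ univ := by
      rintro rfl; exact hSU rfl
    obtain ⟨c, hc⟩ := hprop S' hS'
    set φ : ℕ → Bool := fun n => if h : ∃ x, emb V x = n then c h.choose else true with hφ
    have hφx : ∀ x : V, φ (emb V x) = c x := by
      intro x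
      have h : ∃ y, emb V y = emb V x := ⟨x, rfl⟩
      simp only [hφ]
      rw [dif_pos h]
      congr 1
      exact (emb V).injective h.choose_spec
    refine ⟨φ, fun _ _ => 0, fun u hu => ?_, fun u _ v _ _ => Nat.zero_le _⟩
    obtain ⟨x, hx, rfl⟩ := mem_map.mp hu
    rw [hN, gnet_load]
    have h1 := hc x hx
    simp only [hφx, sum_const_zero, zero_add]
    unfold Net.cap
    have e4 : (gnet P G).a (emb V x) = i + 1 := rfl
    have e5 : (gnet P G).b (emb V x) = j + 1 := rfl
    rw [e4, e5]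
    split_ifs at h1 ⊢ <;> omega
  have hcolU : N.Colorable U := by
    by_cases hg : N.Good U
    · exact colorable_of_good N U hg
    · unfold Net.Good at hg
      push Not at hg
      obtain ⟨S0, hS0, hS0ne, hS0R⟩ := hg
      have hS0U : S0 ≠ U := by
        rintro rfl; linarith
      obtain ⟨S, hSm, hmin⟩ := exists_min_image
        (U.powerset.filter fun S => S.Nonempty ∧ S ≠ U) N.R ⟨S0, by simp [hS0, hS0ne, hS0U]⟩
      have hSR : N.R S ≤ -2 * P.B :=
        (hmin S0 (by simp [hS0, hS0ne, hS0U])).trans hS0R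
      simp only [mem_filter, mem_powerset] at hSm hmin
      obtain ⟨hS, hSne, hSU⟩ := hSm
      obtain ⟨φ, p, hc⟩ := hcolS S hS hSU
      have hd : Disjoint S (U \ S) := disjoint_sdiff
      have hg : (N.ext2 S φ φ).Good (U \ S) := by
        refine ext_good N hd fun X hX hXne => ?_
        have hK := P.hK
        have hB := P.hB
        have h0 : (0 : ℤ) ≤ 2 * P.K * (N.n1 S X φ : ℤ) := by positivity
        by_cases hV : S ∪ X = U
        · rw [hV]; linarith
        · have := hmin _ ⟨union_subset hS (hX.trans sdiff_subset),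
            hSne.mono subset_union_left, hV⟩
          linarith
      obtain ⟨ψ, q, hψ⟩ := colorable_of_good _ _ hg
      obtain ⟨χ, r, h, _⟩ := glue N hd hc hψ
      rw [union_sdiff_of_subset hS] at h
      exact ⟨χ, r, h⟩
  obtain ⟨χ, r, h⟩ := hcolU
  refine ⟨fun v => χ (emb V v), fun v => ?_⟩
  have h1 := h.ld (emb V v) (mem_map_of_mem _ (mem_univ v))
  rw [hN, hU, gnet_load] at h1
  unfold Net.cap at h1
  have e4 : (gnet P G).a (emb V v) = i + 1 := rfl
  have e5 : (gnet P G).b (emb V v) = j + 1 := rfl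
  rw [e4, e5] at h1
  beta_reduce
  split_ifs at h1 ⊢ <;> omega

end Pool.Agent.K1H47.Defect
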