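import Pool.Agent.K1H47.Defect.Low

/-! Replacing a low set by a hub. -/

namespace Pool.Agent.K1H47.Defect

open Finset

variable {P : Par} {G : Net P} {V T : Finset ℕ} {φ φ' : ℕ → Bool} {p p' : ℕ → ℕ → ℕ}

def Net.hE (G : Net P) (T : Finset ℕ) (φ φ' : ℕ → Bool) (v : ℕ) : ℕ :=
  if ∃ u ∈ T, (φ u = false ∧ φ' u = true) ∧ G.E u v ≠ 0 then 1 else 0

def Net.hL (G : Net P) (T : Finset ℕ) (φ φ' : ℕ → Bool) (v : ℕ) : ℕ :=
  ∑ u ∈ T, (if φ u = false ∧ φ' u = true then G.L u v else 0)

/-- The hub replacement. -/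
def Net.hub (G : Net P) (T : Finset ℕ) (φ φ' : ℕ → Bool) (t : ℕ) : Net P where
  a v := if v = t then 1 else (G.ext2 T φ φ').a v
  b v := if v = t then 1 else (G.ext2 T φ φ').b v
  E u v := if u = t then (if v = t then 0 else G.hE T φ φ' v) else
    if v = t then G.hE T φ φ' u else G.E u v
  L u v := if u = t then (if v = t then 0 else G.hL T φ φ' v) else
    if v = t then G.hL T φ φ' u else G.L u v
  Es u v := by
    by_cases h1 : u = t <;> by_cases h2 : v = t <;> simp [h1, h2, G.Es u v]
  Ls u v := by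
    by_cases h1 : u = t <;> by_cases h2 : v = t <;> simp [h1, h2, G.Ls u v]
  E0 u := by by_cases h1 : u = t <;> simp [h1, G.E0 u]
  L0 u := by by_cases h1 : u = t <;> simp [h1, G.L0 u]
  E1 u v := by
    have hh : ∀ v, G.hE T φ φ' v ≤ 1 := fun v => by unfold Net.hE; split_ifs <;> omega
    by_cases h1 : u = t <;> by_cases h2 : v = t <;> simp [h1, h2, G.E1 u v, hh]
  Ea u v h := by
    by_cases h1 : u = t
    · rw [if_pos h1]; exact P.hca1
    · rw [if_neg h1] at h ⊢
      have hle : (G.ext2 T φ φ').a u ≤ G.a u := by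
        simp only [Net.ext2]; split_ifs <;> omega
      refine hle.trans ?_
      by_cases h2 : v = t
      · rw [if_pos h2] at h
        unfold Net.hE at h
        split_ifs at h with h3
        · obtain ⟨x, _, _, hx⟩ := h3
          exact G.Ea u x (by rw [G.Es]; exact hx)
        · exact absurd rfl h
      · rw [if_neg h2] at h
        exact G.Ea u v h
  Eb u v h := by
    by_cases h1 : u = t
    · rw [if_pos h1]; exact P.hcb1
    · rw [if_neg h1] at h ⊢
      have hle : (G.ext2 T φ φ').b u ≤ G.b u := by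
        simp only [Net.ext2]; split_ifs <;> omega
      refine hle.trans ?_
      by_cases h2 : v = t
      · rw [if_pos h2] at h
        unfold Net.hE at h
        split_ifs at h with h3
        · obtain ⟨x, _, _, hx⟩ := h3
          exact G.Eb u x (by rw [G.Es]; exact hx)
        · exact absurd rfl h
      · rw [if_neg h2] at h
        exact G.Eb u v h

lemma hub_R (G : Net P) {X : Finset ℕ} {t : ℕ} (ht : t ∉ X) :
    (G.hub T φ φ' t).R X = (G.ext2 T φ φ').R X := by
  have hn : ∀ v ∈ X, v ≠ t := fun v hv h => ht (h ▸ hv)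
  refine R_congr (fun v hv => ?_) (fun v hv => ?_) (fun u hu v hv => ?_) (fun u hu v hv => ?_)
  · simp only [Net.hub]; rw [if_neg (hn v hv)]
  · simp only [Net.hub]; rw [if_neg (hn v hv)]
  · simp only [Net.hub]; rw [if_neg (hn u hu), if_neg (hn v hv)]; rfl
  · simp only [Net.hub]; rw [if_neg (hn u hu), if_neg (hn v hv)]; rfl

lemma hub_R_insert (G : Net P) {X : Finset ℕ} {t : ℕ} (ht : t ∉ X) :
    (G.ext2 T φ φ').R X + 2 * P.A - 2 * G.q1 T X φ φ' ≤
      (G.hub T φ φ' t).R (insert t X) := by
  have h1 : (G.hub T φ φ' t).R (insert t X) = _ := pot_insert (G.hub T φ φ' t).ws ht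
  have h2 : pot (G.hub T φ φ' t).c (G.hub T φ φ' t).w X = (G.ext2 T φ φ').R X := hub_R G ht
  have h3 : (G.hub T φ φ' t).c t = P.A := by
    simp [Net.c, Net.hub]
  have h4 : (G.hub T φ φ' t).w t t = 0 := Net.w0 _ _
  have h5 : ∑ x ∈ X, (G.hub T φ φ' t).w t x ≤ G.q1 T X φ φ' := by
    unfold Net.q1
    refine sum_le_sum fun x hx => ?_
    have hxt : x ≠ t := fun h => ht (h ▸ hx)
    have e1 : (G.hub T φ φ' t).w t x = P.D * (G.hE T φ φ' x : ℤ) + P.A * (G.hL T φ φ' x : ℤ) := by
      simp [Net.w, Net.hub, hxt]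
    have e2 : ∑ u ∈ T, (if φ u = false ∧ φ' u = true then G.w u x else 0) =
        ∑ u ∈ T, (if φ u = false ∧ φ' u = true then P.D * (G.E u x : ℤ) else 0) +
        P.A * (G.hL T φ φ' x : ℤ) := by
      unfold Net.hL
      push_cast
      rw [mul_sum, ← sum_add_distrib]
      refine sum_congr rfl fun u _ => ?_
      unfold Net.w
      split_ifs <;> simp
    rw [e1, e2]
    have hD := P.D_pos
    have hnn : ∀ u ∈ T, (0 : ℤ) ≤
        (if φ u = false ∧ φ' u = true then P.D * (G.E u x : ℤ) else 0) := by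
      intro u _
      have : 0 ≤ P.D * (G.E u x : ℤ) := by positivity
      split_ifs <;> omega
    have e3 : P.D * (G.hE T φ φ' x : ℤ) ≤
        ∑ u ∈ T, (if φ u = false ∧ φ' u = true then P.D * (G.E u x : ℤ) else 0) := by
      unfold Net.hE
      split_ifs with h
      · obtain ⟨u, hu, hq, hE⟩ := h
        refine le_trans ?_ (single_le_sum hnn hu)
        rw [if_pos hq]
        have : G.E u x = 1 := by have := G.E1 u x; omega
        rw [this]
      · simpa using sum_nonneg hnn
    linarith
  rw [h1, h2, h3, h4]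
  linarith

lemma ext2_cap_true (G : Net P) (T : Finset ℕ) (φ φ' : ℕ → Bool) (w : ℕ) :
    (G.ext2 T φ φ').cap true w = if ∃ u ∈ T, φ u = true ∧ G.E u w ≠ 0 then 0 else
    G.a w - ∑ u ∈ T, (if φ' u = false then G.L u w else 0) := rfl

lemma ext2_cap_false (G : Net P) (T : Finset ℕ) (φ φ' : ℕ → Bool) (w : ℕ) :
    (G.ext2 T φ φ').cap false w = if ∃ u ∈ T, φ' u = false ∧ G.E u w ≠ 0 then 0 else
    G.b w - ∑ u ∈ T, (if φ u = true then G.L u w else 0) := rfl

lemma hub_col (G : Net P) {W : Finset ℕ} {t : ℕ} (ht : t ∉ W) {χ : ℕ → Bool}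
    {q : ℕ → ℕ → ℕ} (h : (G.hub T φ φ' t).IsCol (insert t W) χ q) :
    (G.ext2 T φ φ).IsCol W χ q ∨ (G.ext2 T φ' φ').IsCol W χ q := by
  have hn : ∀ v ∈ W, v ≠ t := fun v hv h => ht (h ▸ hv)
  -- the hub has load zero
  have ht0 := h.ld t (mem_insert_self _ _)
  have hcap : (G.hub T φ φ' t).cap (χ t) t = 1 := by
    unfold Net.cap Net.hub; simp
  rw [hcap] at ht0
  have hz : ∀ v ∈ W, q t v = 0 ∧ (χ v = χ t → G.hE T φ φ' v = 0) := by
    intro v hv
    have h1 : (G.hub T φ φ' t).load (insert t W) χ q t = 0 := by omega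
    unfold Net.load at h1
    have h2 := (sum_eq_zero_iff.mp h1) v (mem_insert_of_mem hv)
    have e1 : (G.hub T φ φ' t).E t v = G.hE T φ φ' v := by simp [Net.hub, hn v hv]
    rw [e1] at h2
    refine ⟨by omega, fun hc => ?_⟩
    rw [if_pos hc] at h2; omega
  have hload : ∀ w ∈ W, (G.hub T φ φ' t).load (insert t W) χ q w =
      q w t + (if χ t = χ w then G.hE T φ φ' w else 0) + G.load W χ q w := by
    intro w hw
    unfold Net.load
    rw [sum_insert ht]
    have e1 : (G.hub T φ φ' t).E w t = G.hE T φ φ' w := by simp [Net.hub, hn w hw]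
    rw [e1]
    congr 1
    refine sum_congr rfl fun v hv => ?_
    have e2 : (G.hub T φ φ' t).E w v = G.E w v := by simp [Net.hub, hn w hw, hn v hv]
    rw [e2]
  have hlk : ∀ w ∈ W, χ w ≠ χ t → G.hL T φ φ' w ≤ q w t := by
    intro w hw hne
    have h1 := h.lk w (mem_insert_of_mem hw) t (mem_insert_self _ _) hne
    have e1 : (G.hub T φ φ' t).L w t = G.hL T φ φ' w := by simp [Net.hub, hn w hw]
    rw [e1, (hz w hw).1] at h1
    omega
  have hlkW : ∀ u ∈ W, ∀ v ∈ W, χ u ≠ χ v → G.L u v ≤ q u v + q v u := by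
    intro u hu v hv hne
    have h1 := h.lk u (mem_insert_of_mem hu) v (mem_insert_of_mem hv) hne
    have e1 : (G.hub T φ φ' t).L u v = G.L u v := by simp [Net.hub, hn u hu, hn v hv]
    rw [e1] at h1; exact h1
  have hld : ∀ w ∈ W, q w t + (if χ t = χ w then G.hE T φ φ' w else 0) + G.load W χ q w <
      (G.ext2 T φ φ').cap (χ w) w := by
    intro w hw
    have h1 := h.ld w (mem_insert_of_mem hw)
    rw [hload w hw] at h1
    have e1 : (G.hub T φ φ' t).cap (χ w) w = (G.ext2 T φ φ').cap (χ w) w := by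
      unfold Net.cap Net.hub; simp [hn w hw]
    rw [e1] at h1; exact h1
  have hld' : ∀ w ∈ W, q w t + G.load W χ q w < (G.ext2 T φ φ').cap (χ w) w := by
    intro w hw
    have := hld w hw
    omega
  have hEpos : ∀ w ∈ W, G.hE T φ φ' w = 0 → ∀ u ∈ T, φ u = false → φ' u = true →
      G.E u w = 0 := by
    intro w _ h0 u hu h1 h2
    by_contra hE
    unfold Net.hE at h0
    rw [if_pos ⟨u, hu, ⟨h1, h2⟩, hE⟩] at h0
    exact absurd h0 one_ne_zero
  cases hct : χ t
  · left
    refine ⟨fun w hw => ?_, hlkW⟩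
    have h1 := hld' w hw
    have e1 : (G.ext2 T φ φ).load W χ q w = G.load W χ q w := rfl
    rw [e1]
    cases hcw : χ w
    · rw [hcw] at h1
      have h0 : G.hE T φ φ' w = 0 := (hz w hw).2 (hcw.trans hct.symm)
      rw [ext2_cap_false] at h1 ⊢
      split_ifs at h1 with h2
      · omega
      · rw [if_neg]
        · omega
        · rintro ⟨u, hu, hφ, hE⟩
          cases hφ' : φ' u
          · exact h2 ⟨u, hu, hφ', hE⟩
          · exact hE (hEpos w hw h0 u hu hφ hφ')
    · rw [hcw] at h1
      have hg := hlk w hw (by rw [hcw, hct]; simp)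
      rw [ext2_cap_true] at h1 ⊢
      split_ifs at h1 with h2
      · omega
      · rw [if_neg h2]
        have hle : ∑ u ∈ T, (if φ u = false then G.L u w else 0) ≤
            ∑ u ∈ T, (if φ' u = false then G.L u w else 0) + G.hL T φ φ' w := by
          unfold Net.hL
          rw [← sum_add_distrib]
          refine sum_le_sum fun u _ => ?_
          cases φ u <;> cases φ' u <;> simp
        omega
  · right
    refine ⟨fun w hw => ?_, hlkW⟩
    have h1 := hld' w hw
    have e1 : (G.ext2 T φ' φ').load W χ q w = G.load W χ q w := rfl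
    rw [e1]
    cases hcw : χ w
    · rw [hcw] at h1
      have hg := hlk w hw (by rw [hcw, hct]; simp)
      rw [ext2_cap_false] at h1 ⊢
      split_ifs at h1 with h2
      · omega
      · rw [if_neg h2]
        have hle : ∑ u ∈ T, (if φ' u = true then G.L u w else 0) ≤
            ∑ u ∈ T, (if φ u = true then G.L u w else 0) + G.hL T φ φ' w := by
          unfold Net.hL
          rw [← sum_add_distrib]
          refine sum_le_sum fun u _ => ?_
          cases φ u <;> cases φ' u <;> simp
        omega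
    · rw [hcw] at h1
      have h0 : G.hE T φ φ' w = 0 := (hz w hw).2 (hcw.trans hct.symm)
      rw [ext2_cap_true] at h1 ⊢
      split_ifs at h1 with h2
      · omega
      · rw [if_neg]
        · omega
        · rintro ⟨u, hu, hφ', hE⟩
          cases hφ : φ u
          · exact hE (hEpos w hw h0 u hu hφ hφ')
          · exact h2 ⟨u, hu, hφ, hE⟩

lemma q1_nonneg (G : Net P) (T X : Finset ℕ) (φ φ' : ℕ → Bool) : 0 ≤ G.q1 T X φ φ' := by
  unfold Net.q1
  refine sum_nonneg fun x _ => sum_nonneg fun u _ => ?_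
  have := G.w_nonneg u x
  split_ifs <;> omega

lemma q1_ge {X : Finset ℕ} {u w : ℕ} (hu : u ∈ T) (hw : w ∈ X) (hφ : φ u = false)
    (hφ' : φ' u = true) (hi : G.E u w + G.L u w ≠ 0) : P.A ≤ G.q1 T X φ φ' := by
  unfold Net.q1
  have hnn : ∀ x, ∀ u ∈ T, (0 : ℤ) ≤ (if φ u = false ∧ φ' u = true then G.w u x else 0) := by
    intro x u _
    have := G.w_nonneg u x
    split_ifs <;> omega
  refine le_trans ?_ (single_le_sum (f := fun x => ∑ u ∈ T, (if φ u = false ∧ φ' u = true then
    G.w u x else 0)) (fun x _ => sum_nonneg (hnn x)) hw)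
  refine le_trans ?_ (single_le_sum (f := fun u => (if φ u = false ∧ φ' u = true then
    G.w u w else 0)) (hnn w) hu)
  rw [if_pos ⟨hφ, hφ'⟩]
  have hA := P.A_pos
  have hD := P.hD
  have hB := P.hB
  unfold Net.w
  rcases Nat.eq_zero_or_pos (G.E u w) with h | h
  · have h1 : (1 : ℤ) ≤ (G.L u w : ℤ) := by
      have : 1 ≤ G.L u w := by omega
      exact_mod_cast this
    rw [h]
    have := mul_le_mul_of_nonneg_left h1 hA.le
    push_cast; linarith
  · have h1 : (1 : ℤ) ≤ (G.E u w : ℤ) := by exact_mod_cast h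
    have h2 := mul_le_mul_of_nonneg_left h1 P.D_pos.le
    have h3 : 0 ≤ P.A * (G.L u w : ℤ) := by positivity
    linarith

/-- Antichain lemma. -/
theorem MinCex.antichain (M : MinCex G V) (hT : T ⊆ V) (hTV : T ≠ V) (h2 : 2 ≤ T.card)
    (hlow : G.R T ≤ 2 * P.A) (hc : G.IsCol T φ p) (hc' : G.IsCol T φ' p')
    (hsub : ∀ u ∈ T, G.m V T u ≠ 0 → φ u = true → φ' u = true)
    (hne : ∃ u ∈ T, G.m V T u ≠ 0 ∧ φ u = false ∧ φ' u = true) : False := by
  have hTne : T.Nonempty := by
    rw [← card_pos]; omega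
  obtain ⟨t, ht⟩ := hTne
  have hTne : T.Nonempty := ⟨t, ht⟩
  have hd : Disjoint T (V \ T) := disjoint_sdiff
  have htW : t ∉ V \ T := fun h => (mem_sdiff.mp h).2 ht
  have hRV := M.RV
  have hAp := P.A_pos
  have hK := P.hK
  have hm : ∀ X ⊆ V \ T, ∀ u ∈ T, ∀ x ∈ X, φ u = true → φ' u = false →
      G.E u x = 0 ∧ G.L u x = 0 := by
    intro X hX u hu x hx h1 h2
    by_contra hcon
    have h3 : G.m V T u ≠ 0 := by
      unfold Net.m
      intro h0
      have := (sum_eq_zero_iff.mp h0) x (hX hx)
      apply hcon; constructor <;> omega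
    have := hsub u hu h3 h1
    rw [h2] at this; exact Bool.noConfusion this
  have hpot : ∀ X ⊆ V \ T, G.R (T ∪ X) - G.R T + 2 * G.q1 T X φ φ' ≤
      (G.ext2 T φ φ').R X := by
    intro X hX
    have h1 := ext2_pot G φ φ' (disjoint_of_subset_right hX hd) (hm X hX)
    have : (0 : ℤ) ≤ 2 * P.K * (G.n1 T X φ : ℤ) := by positivity
    linarith
  have hg : (G.hub T φ φ' t).Good (insert t (V \ T)) := by
    intro S hS hSne
    by_cases htS : t ∈ S
    · have hXsub : S.erase t ⊆ V \ T := by
        intro x hx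
        have hx1 := mem_of_mem_erase hx
        have hx2 := ne_of_mem_erase hx
        rcases mem_insert.mp (hS hx1) with h | h
        · exact absurd h hx2
        · exact h
      have hins : insert t (S.erase t) = S := insert_erase htS
      have h1 := hub_R_insert (φ := φ) (φ' := φ') (T := T) G (notMem_erase t S)
      rw [hins] at h1
      have h3 := hpot _ hXsub
      by_cases hXne : (S.erase t).Nonempty
      · by_cases hV : T ∪ S.erase t = V
        · rw [hV] at h3; linarith
        · have h4 := M.S2 (union_subset hT (hXsub.trans sdiff_subset))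
            (hTne.mono subset_union_left) hV
          linarith
      · rw [not_nonempty_iff_eq_empty] at hXne
        rw [hXne, union_empty] at h3
        rw [hXne] at h1
        have hB := P.hB
        linarith
    · have hXsub : S ⊆ V \ T := by
        intro x hx
        rcases mem_insert.mp (hS hx) with h | h
        · exact absurd (h ▸ hx) htS
        · exact h
      rw [hub_R G htS]
      refine lt_of_lt_of_le ?_ (hpot S hXsub)
      by_cases hV : T ∪ S = V
      · have hSV := eq_sdiff_of_union hT hXsub hV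
        obtain ⟨u, hu, hmu, h3, h4⟩ := hne
        obtain ⟨w, hw, hit⟩ := exists_item hmu
        rw [hV]
        rw [← hSV] at hw
        have := q1_ge (G := G) hu hw h3 h4 hit
        linarith
      · have h4 := M.S2 (union_subset hT (hXsub.trans sdiff_subset))
            (hTne.mono subset_union_left) hV
        have h5 := q1_nonneg G T S φ φ'
        linarith
  have hcard : (insert t (V \ T)).card < V.card := by
    rw [card_insert_of_notMem htW, card_sdiff_of_subset hT]
    have := card_le_card hT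
    omega
  obtain ⟨χ, q, hχ⟩ := M.card _ _ hcard hg
  rcases hub_col G htW hχ with h | h
  · obtain ⟨χ', r, h', _⟩ := glue G hd hc h
    rw [union_sdiff_of_subset hT] at h'
    exact M.unc ⟨χ', r, h'⟩
  · obtain ⟨χ', r, h', _⟩ := glue G hd hc' h
    rw [union_sdiff_of_subset hT] at h'
    exact M.unc ⟨χ', r, h'⟩

end Pool.Agent.K1H47.Defect
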