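import Pool.Agent.K1H47.Defect.Mods

/-! Low sets in a minimal counterexample. -/

namespace Pool.Agent.K1H47.Defect

open Finset

variable {P : Par} {G : Net P} {V T : Finset ℕ} {φ φ' : ℕ → Bool} {p p' : ℕ → ℕ → ℕ}

lemma q1_self (G : Net P) (T X : Finset ℕ) (φ : ℕ → Bool) : G.q1 T X φ φ = 0 := by
  unfold Net.q1
  refine sum_eq_zero fun x _ => sum_eq_zero fun u _ => ?_
  rw [if_neg]
  rintro ⟨h1, h2⟩
  rw [h1] at h2; exact Bool.noConfusion h2

lemma card_sdiff_lt (hT : T ⊆ V) (hne : T.Nonempty) : (V \ T).card < V.card := by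
  rw [card_sdiff_of_subset hT]
  have := hne.card_pos
  have := card_le_card hT
  omega

lemma eq_sdiff_of_union {X : Finset ℕ} (hT : T ⊆ V) (hX : X ⊆ V \ T) (h : T ∪ X = V) :
    X = V \ T := by
  apply Subset.antisymm hX
  intro x hx
  rw [mem_sdiff] at hx
  rw [← h, mem_union] at hx
  tauto

lemma ext_good (G : Net P) {W : Finset ℕ} (hd : Disjoint T W)
    (h : ∀ X ⊆ W, X.Nonempty → -2 * P.B < G.R (T ∪ X) - G.R T + 2 * P.K * (G.n1 T X φ : ℤ)) :
    (G.ext2 T φ φ).Good W := by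
  intro X hX hne
  refine lt_of_lt_of_le (h X hX hne) ?_
  have h1 := ext2_pot G φ φ (disjoint_of_subset_right hX hd) (T := T) (X := X) ?_
  · rw [q1_self] at h1; linarith
  · intro u _ x _ h1 h2
    rw [h1] at h2; exact Bool.noConfusion h2

theorem MinCex.n1ext (M : MinCex G V) (hT : T ⊆ V) (hne : T.Nonempty) (hc : G.IsCol T φ p) :
    ∃ X ⊆ V \ T, X.Nonempty ∧
      G.R (T ∪ X) - G.R T + 2 * P.K * (G.n1 T X φ : ℤ) ≤ -2 * P.B := by
  by_contra hcon
  push Not at hcon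
  have hd : Disjoint T (V \ T) := disjoint_sdiff
  have hg := ext_good G hd (φ := φ) hcon
  obtain ⟨ψ, q, hψ⟩ := M.card _ (V \ T) (card_sdiff_lt hT hne) hg
  obtain ⟨χ, r, h, _⟩ := glue G hd hc hψ
  rw [union_sdiff_of_subset hT] at h
  exact M.unc ⟨χ, r, h⟩

theorem MinCex.spareExt (M : MinCex G V) (hT : T ⊆ V) (hc : G.IsCol T φ p)
    {u w0 : ℕ} (hu : u ∈ T) (hw : w0 ∈ V \ T) (hs : G.load T φ p u + 1 < G.cap (φ u) u)
    (hitem : G.E u w0 + G.L u w0 ≠ 0) :
    ∃ X ⊆ V \ T, X.Nonempty ∧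
      G.R (T ∪ X) - G.R T + (if w0 ∈ X then 2 * P.A else 0) ≤ -2 * P.B := by
  have hne : T.Nonempty := ⟨u, hu⟩
  have hwT : w0 ∉ T := (mem_sdiff.mp hw).2
  have huV : u ∈ V := hT hu
  have hwV : w0 ∈ V := (mem_sdiff.mp hw).1
  have huw : u ≠ w0 := fun h => hwT (h ▸ hu)
  have hd : Disjoint T (V \ T) := disjoint_sdiff
  have hK := P.hK
  by_contra hcon
  push Not at hcon
  by_cases hL : 1 ≤ G.L u w0
  · -- a link
    have hTcol : (G.remLink u w0).IsCol T φ p := by
      refine isCol_congr (G := G) (fun _ _ => le_refl _) (fun _ _ => le_refl _)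
        (fun _ _ _ _ => rfl) (fun x _ y _ => ?_) hc
      simp only [Net.remLink]; omega
    have hRT : (G.remLink u w0).R T = G.R T := by
      refine R_congr (fun _ _ => rfl) (fun _ _ => rfl) (fun _ _ _ _ => rfl) (fun x hx y hy => ?_)
      simp only [Net.remLink]
      rw [if_neg]
      · rfl
      · rintro (⟨_, rfl⟩ | ⟨rfl, _⟩)
        · exact hwT hy
        · exact hwT hx
    have hg : ((G.remLink u w0).ext2 T φ φ).Good (V \ T) := by
      refine ext_good _ hd fun X hX hXne => ?_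
      have h1 := hcon X hX hXne
      have h2 := remLink_R G huw hL (T ∪ X)
      have h3 : (if u ∈ T ∪ X ∧ w0 ∈ T ∪ X then 2 * P.A else 0) =
          if w0 ∈ X then 2 * P.A else 0 := by
        have : (u ∈ T ∪ X ∧ w0 ∈ T ∪ X) ↔ w0 ∈ X := by
          simp only [mem_union]; tauto
        simp only [this]
      rw [h3] at h2
      rw [hRT]
      have : (0 : ℤ) ≤ 2 * P.K * ((G.remLink u w0).n1 T X φ : ℤ) := by positivity
      linarith
    obtain ⟨ψ, q, hψ⟩ := M.card _ (V \ T) (card_sdiff_lt hT hne) hg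
    obtain ⟨χ, r, h, hχT, _, hload⟩ := glue _ hd hTcol hψ
    rw [union_sdiff_of_subset hT] at h hload
    refine M.unc (addLink h (Or.inl ⟨rfl, rfl⟩) ?_)
    rw [hload u hu, hχT u hu]
    exact hs
  · -- an edge
    have hE : G.E u w0 = 1 := by have := G.E1 u w0; omega
    set pa : ℕ → ℕ := fun v => if v = w0 ∧ φ u = true then 1 else 0 with hpa
    set qa : ℕ → ℕ := fun v => if v = w0 ∧ φ u = false then 1 else 0 with hqa
    set H := (G.remEdge u w0).red pa qa with hH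
    have hpT : ∀ v ∈ T, pa v = 0 := by
      intro v hv; simp only [hpa]; rw [if_neg]; rintro ⟨rfl, _⟩; exact hwT hv
    have hqT : ∀ v ∈ T, qa v = 0 := by
      intro v hv; simp only [hqa]; rw [if_neg]; rintro ⟨rfl, _⟩; exact hwT hv
    have hHE : ∀ x ∈ T, ∀ y ∈ T, H.E x y = G.E x y := by
      intro x hx y hy
      simp only [hH, Net.red, Net.remEdge]
      rw [if_neg]
      rintro (⟨_, rfl⟩ | ⟨rfl, _⟩)
      · exact hwT hy
      · exact hwT hx
    have hHa : ∀ v ∈ T, H.a v = G.a v := by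
      intro v hv; simp only [hH, Net.red, Net.remEdge, hpT v hv]; omega
    have hHb : ∀ v ∈ T, H.b v = G.b v := by
      intro v hv; simp only [hH, Net.red, Net.remEdge, hqT v hv]; omega
    have hTcol : H.IsCol T φ p :=
      isCol_congr (G := G) (fun v hv => (hHa v hv).ge) (fun v hv => (hHb v hv).ge)
        (fun x hx y hy => (hHE x hx y hy).symm) (fun x _ y _ => le_refl _) hc
    have hRT : H.R T = G.R T := R_congr hHa hHb hHE (fun _ _ _ _ => rfl)
    have hg : (H.ext2 T φ φ).Good (V \ T) := by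
      refine ext_good _ hd fun X hX hXne => ?_
      have h1 := hcon X hX hXne
      have h2 := remEdge_R G huw hE (T ∪ X)
      have h2' := red_R (G.remEdge u w0) pa qa (T ∪ X)
      rw [← hH] at h2'
      have h3 : (if u ∈ T ∪ X ∧ w0 ∈ T ∪ X then 2 * P.D else 0) =
          if w0 ∈ X then 2 * P.D else 0 := by
        have : (u ∈ T ∪ X ∧ w0 ∈ T ∪ X) ↔ w0 ∈ X := by
          simp only [mem_union]; tauto
        simp only [this]
      have h4 : ∑ v ∈ T ∪ X, (P.A * (pa v : ℤ) + P.B * (qa v : ℤ)) ≤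
          if w0 ∈ X then P.A else 0 := by
        have hpt : ∀ v ∈ T ∪ X, (P.A * (pa v : ℤ) + P.B * (qa v : ℤ)) ≤
            if v = w0 then P.A else 0 := by
          intro v _
          have hA := P.hA
          simp only [hpa, hqa]
          by_cases hv : v = w0
          · rw [if_pos hv]
            cases hφ : φ u <;> simp [hv]
            omega
          · rw [if_neg hv, if_neg (fun h => hv h.1), if_neg (fun h => hv h.1)]; simp
        refine (sum_le_sum hpt).trans ?_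
        rw [sum_ite_eq']
        have : (w0 ∈ T ∪ X) ↔ w0 ∈ X := by simp only [mem_union]; tauto
        simp only [this]; exact le_refl _
      rw [h3] at h2
      rw [hRT]
      have h5 : (0 : ℤ) ≤ 2 * P.K * (H.n1 T X φ : ℤ) := by positivity
      have hD := P.hD
      have hB := P.hB
      by_cases hwX : w0 ∈ X
      · rw [if_pos hwX] at h1 h2 h4; linarith
      · rw [if_neg hwX] at h1 h2 h4; linarith
    obtain ⟨ψ, q, hψ⟩ := M.card _ (V \ T) (card_sdiff_lt hT hne) hg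
    obtain ⟨χ, r, h, hχT, _, hload⟩ := glue _ hd hTcol hψ
    rw [union_sdiff_of_subset hT] at h hload
    obtain ⟨h1, h2⟩ := red_col h
    refine M.unc ⟨χ, r, addEdge h1 huV hwV huw fun heq => ⟨?_, ?_⟩⟩
    · have e1 : (G.remEdge u w0).load V χ r u = H.load V χ r u := rfl
      rw [e1, hload u hu, hχT u hu]
      have e2 : H.load T φ p u = G.load T φ p u := load_congr hHE hu
      rw [e2]; exact hs
    · have h3 := h2 w0 hwV
      have hcap : (G.remEdge u w0).cap (χ w0) w0 = G.cap (χ w0) w0 := rfl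
      rw [hcap] at h3
      have h4 : (if χ w0 = true then pa w0 else qa w0) = 1 := by
        rw [← heq, hχT u hu]
        simp only [hpa, hqa]
        cases hφ : φ u <;> simp
      rw [h4] at h3; exact h3

theorem MinCex.V_ne (M : MinCex G V) : V.Nonempty := by
  rw [nonempty_iff_ne_empty]
  rintro rfl
  exact M.unc ⟨fun _ => true, fun _ _ => 0, ⟨fun u hu => absurd hu (notMem_empty u),
    fun u hu => absurd hu (notMem_empty u)⟩⟩

theorem MinCex.RV (M : MinCex G V) : -2 * P.B < G.R V := M.good V (Subset.refl V) M.V_ne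

theorem MinCex.reserve (M : MinCex G V) (hT : T ⊆ V) (hTV : T ≠ V) (pa qa : ℕ → ℕ)
    (h : ∀ Y ⊆ T, Y.Nonempty →
      -2 * P.B < G.R Y - 2 * ∑ v ∈ Y, (P.A * (pa v : ℤ) + P.B * (qa v : ℤ))) :
    ∃ φ p, G.IsCol T φ p ∧ ∀ v ∈ T, G.load T φ p v + (if φ v = true then pa v else qa v) <
      G.cap (φ v) v := by
  have hg : (G.red pa qa).Good T := fun Y hY hne => lt_of_lt_of_le (h Y hY hne) (red_R G pa qa Y)
  obtain ⟨φ, p, hc⟩ := M.card _ T (card_lt_card (hT.ssubset_of_ne hTV)) hg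
  exact ⟨φ, p, red_col hc⟩

lemma sum_single (Y : Finset ℕ) (u : ℕ) (t : ℤ) (ht : 0 ≤ t) :
    ∑ v ∈ Y, (if v = u then t else 0) ≤ t := by
  rw [sum_ite_eq']; split_ifs <;> omega

/-- Reserve one unit of `b` at `u`. -/
theorem MinCex.reserve_b (M : MinCex G V) (hT : T ⊆ V) (hTV : T ≠ V) (u : ℕ) (hu : u ∈ T)
    (h : ∀ Y ⊆ T, Y.Nonempty → 0 < G.R Y) :
    ∃ φ p, G.IsCol T φ p ∧ (φ u = false → G.load T φ p u + 1 < G.cap (φ u) u) := by
  have key : ∀ Y ⊆ T, Y.Nonempty → -2 * P.B < G.R Y - 2 * ∑ v ∈ Y,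
      (P.A * (((0 : ℕ)) : ℤ) + P.B * ((if v = u then 1 else 0 : ℕ) : ℤ)) := by
    intro Y hY hne
    have h3 := h Y hY hne
    have h4 : ∑ v ∈ Y, (P.A * (((0 : ℕ)) : ℤ) + P.B * ((if v = u then 1 else 0 : ℕ) : ℤ)) ≤
        P.B := by
      refine le_trans (le_of_eq ?_) (sum_single Y u P.B P.hB.le)
      refine sum_congr rfl fun v _ => ?_
      split_ifs <;> simp
    linarith
  obtain ⟨φ, p, h1, h2⟩ := M.reserve hT hTV (fun _ => 0) (fun v => if v = u then 1 else 0) key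
  refine ⟨φ, p, h1, fun hφ => ?_⟩
  have := h2 u hu
  rw [hφ] at this ⊢
  simpa using this

/-- Reserve one unit of `a` at `u`. -/
theorem MinCex.reserve_a (M : MinCex G V) (hT : T ⊆ V) (hTV : T ≠ V) (u : ℕ) (hu : u ∈ T)
    (h : ∀ Y ⊆ T, Y.Nonempty → 2 * P.A - 2 * P.B < G.R Y) :
    ∃ φ p, G.IsCol T φ p ∧ (φ u = true → G.load T φ p u + 1 < G.cap (φ u) u) := by
  have key : ∀ Y ⊆ T, Y.Nonempty → -2 * P.B < G.R Y - 2 * ∑ v ∈ Y,
      (P.A * ((if v = u then 1 else 0 : ℕ) : ℤ) + P.B * (((0 : ℕ)) : ℤ)) := by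
    intro Y hY hne
    have h3 := h Y hY hne
    have h4 : ∑ v ∈ Y, (P.A * ((if v = u then 1 else 0 : ℕ) : ℤ) + P.B * (((0 : ℕ)) : ℤ)) ≤
        P.A := by
      refine le_trans (le_of_eq ?_) (sum_single Y u P.A P.A_pos.le)
      refine sum_congr rfl fun v _ => ?_
      split_ifs <;> simp
    linarith
  obtain ⟨φ, p, h1, h2⟩ := M.reserve hT hTV (fun v => if v = u then 1 else 0) (fun _ => 0) key
  refine ⟨φ, p, h1, fun hφ => ?_⟩
  have := h2 u hu
  rw [hφ] at this ⊢
  simpa using this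

lemma n1_ge {X : Finset ℕ} {u w : ℕ} (hu : u ∈ T) (hw : w ∈ X) (hφ : φ u = true) :
    G.E u w + G.L u w ≤ G.n1 T X φ := by
  unfold Net.n1
  refine le_trans ?_ (single_le_sum (f := fun x => ∑ u ∈ T, (if φ u = true then
    G.E u x + G.L u x else 0)) (fun x _ => Nat.zero_le _) hw)
  refine le_trans ?_ (single_le_sum (f := fun u => (if φ u = true then
    G.E u w + G.L u w else 0)) (fun x _ => Nat.zero_le _) hu)
  rw [if_pos hφ]

/-- Every proper nonempty subset has potential at least `R(V) + 2A`. -/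
theorem MinCex.S2 (M : MinCex G V) (hT : T ⊆ V) (hne : T.Nonempty) (hTV : T ≠ V) :
    G.R V + 2 * P.A ≤ G.R T := by
  by_contra hcon
  push Not at hcon
  have hA := P.hA
  have hB := P.hB
  have hK := P.hK
  have hRV := M.RV
  obtain ⟨T0, hT0m, hmin⟩ := exists_min_image (V.powerset.filter fun S => S.Nonempty ∧ S ≠ V)
    G.R ⟨T, by simp [hT, hne, hTV]⟩
  have hR0 : G.R T0 < G.R V + 2 * P.A :=
    lt_of_le_of_lt (hmin T (by simp [hT, hne, hTV])) hcon
  simp only [mem_filter, mem_powerset] at hT0m hmin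
  obtain ⟨hT0, hne0, hTV0⟩ := hT0m
  have hd : Disjoint T0 (V \ T0) := disjoint_sdiff
  have hup : ∀ X ⊆ V \ T0, T0 ∪ X ≠ V → G.R T0 ≤ G.R (T0 ∪ X) := by
    intro X hX h
    refine hmin _ ⟨union_subset hT0 (hX.trans sdiff_subset), hne0.mono subset_union_left, h⟩
  -- any colouring of T0
  have hall : ∀ (φ : ℕ → Bool) (p : ℕ → ℕ → ℕ), G.IsCol T0 φ p →
      G.R V - G.R T0 + 2 * P.K * (G.n1 T0 (V \ T0) φ : ℤ) ≤ -2 * P.B := by
    intro φ p hc
    obtain ⟨X, hX, hXne, hR⟩ := M.n1ext hT0 hne0 hc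
    by_cases hV : T0 ∪ X = V
    · have := eq_sdiff_of_union hT0 hX hV
      subst this
      rw [hV] at hR; exact hR
    · have h1 := hup X hX hV
      have : (0 : ℤ) ≤ 2 * P.K * (G.n1 T0 X φ : ℤ) := by positivity
      linarith
  obtain ⟨φ0, p0, hc0⟩ := M.card G T0 (card_lt_card (hT0.ssubset_of_ne hTV0))
    (Good.mono M.good hT0)
  have h0 := hall φ0 p0 hc0
  have hRpos : 0 < G.R T0 := by
    have : (0 : ℤ) ≤ 2 * P.K * (G.n1 T0 (V \ T0) φ0 : ℤ) := by positivity
    linarith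
  have hn1 : ∀ (φ : ℕ → Bool) (p : ℕ → ℕ → ℕ), G.IsCol T0 φ p → G.n1 T0 (V \ T0) φ = 0 := by
    intro φ p hc
    have h := hall φ p hc
    by_contra hne1
    have h1 : (1 : ℤ) ≤ (G.n1 T0 (V \ T0) φ : ℤ) := by
      have : 1 ≤ G.n1 T0 (V \ T0) φ := Nat.one_le_iff_ne_zero.mpr hne1
      exact_mod_cast this
    have h2 : 2 * P.K * 1 ≤ 2 * P.K * (G.n1 T0 (V \ T0) φ : ℤ) :=
      mul_le_mul_of_nonneg_left h1 (by positivity)
    linarith
  -- there is an item
  have hitem : ∃ u ∈ T0, ∃ w ∈ V \ T0, G.E u w + G.L u w ≠ 0 := by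
    by_contra hno
    push Not at hno
    have h1 := R_union G hd
    rw [union_sdiff_of_subset hT0] at h1
    have h2 : ∑ x ∈ V \ T0, ∑ u ∈ T0, G.w u x = 0 := by
      refine sum_eq_zero fun x hx => sum_eq_zero fun u hu => ?_
      have := hno u hu x hx
      have e1 : G.E u x = 0 := by omega
      have e2 : G.L u x = 0 := by omega
      simp [Net.w, e1, e2]
    rw [h2] at h1
    have h3 : (V \ T0).Nonempty := by
      rw [sdiff_nonempty]; intro h; exact hTV0 (Subset.antisymm hT0 h)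
    have h4 := M.good (V \ T0) sdiff_subset h3
    have h5 : (0 : ℤ) ≤ 2 * P.K * (G.n1 T0 (V \ T0) φ0 : ℤ) := by positivity
    linarith
  obtain ⟨u, hu, w, hw, hit⟩ := hitem
  obtain ⟨φ, p, hc, hsp⟩ := M.reserve_b hT0 hTV0 u hu (fun Y hY hYne => by
    have h1 : Y ≠ V := fun h => hTV0 (Subset.antisymm hT0 (h ▸ hY))
    exact lt_of_lt_of_le hRpos (hmin Y ⟨hY.trans hT0, hYne, h1⟩))
  have hφ : φ u = false := by
    by_contra h
    have hφ : φ u = true := by simpa using h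
    have := n1_ge (G := G) hu hw hφ
    rw [hn1 φ p hc] at this
    omega
  obtain ⟨X, hX, hXne, hR⟩ := M.spareExt hT0 hc hu hw (hsp hφ) hit
  by_cases hV : T0 ∪ X = V
  · have := eq_sdiff_of_union hT0 hX hV
    subst this
    rw [hV, if_pos hw] at hR
    linarith
  · have h1 := hup X hX hV
    have hAp := P.A_pos
    split_ifs at hR <;> linarith

/-- Number of items leaving `T` at `u`. -/
def Net.m (G : Net P) (V T : Finset ℕ) (u : ℕ) : ℕ := ∑ w ∈ V \ T, (G.E u w + G.L u w)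

lemma exists_item {u : ℕ} (h : G.m V T u ≠ 0) : ∃ w ∈ V \ T, G.E u w + G.L u w ≠ 0 := by
  by_contra hno
  push Not at hno
  exact h (sum_eq_zero hno)

lemma n1_eq (G : Net P) (V T : Finset ℕ) (φ : ℕ → Bool) :
    G.n1 T (V \ T) φ = ∑ u ∈ T, (if φ u = true then G.m V T u else 0) := by
  unfold Net.n1 Net.m
  rw [sum_comm]
  refine sum_congr rfl fun u _ => ?_
  split_ifs
  · rfl
  · simp

/-- Low sets: crossing items at vertices coloured `true`. -/
theorem MinCex.low_n1 (M : MinCex G V) (hT : T ⊆ V) (hne : T.Nonempty) (hTV : T ≠ V)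
    (hlow : G.R T ≤ 2 * P.A) (hc : G.IsCol T φ p) :
    2 * P.K * (G.n1 T (V \ T) φ : ℤ) ≤ G.R T - G.R V - 2 * P.B := by
  have hK := P.hK
  have hRV := M.RV
  obtain ⟨X, hX, hXne, hR⟩ := M.n1ext hT hne hc
  by_cases hV : T ∪ X = V
  · have := eq_sdiff_of_union hT hX hV
    subst this
    rw [hV] at hR; linarith
  · have h1 := M.S2 (union_subset hT (hX.trans sdiff_subset)) (hne.mono subset_union_left) hV
    have : (0 : ℤ) ≤ 2 * P.K * (G.n1 T X φ : ℤ) := by positivity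
    linarith

theorem MinCex.low_nospare (M : MinCex G V) (hT : T ⊆ V) (hTV : T ≠ V)
    (hlow : G.R T ≤ 2 * P.A) (hc : G.IsCol T φ p) {u : ℕ} (hu : u ∈ T) (hm : G.m V T u ≠ 0) :
    ¬ (G.load T φ p u + 1 < G.cap (φ u) u) := by
  intro hs
  have hne : T.Nonempty := ⟨u, hu⟩
  have hRV := M.RV
  have hAp := P.A_pos
  obtain ⟨w, hw, hit⟩ := exists_item hm
  obtain ⟨X, hX, hXne, hR⟩ := M.spareExt hT hc hu hw hs hit
  by_cases hV : T ∪ X = V
  · have := eq_sdiff_of_union hT hX hV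
    subst this
    rw [hV, if_pos hw] at hR; linarith
  · have h1 := M.S2 (union_subset hT (hX.trans sdiff_subset)) (hne.mono subset_union_left) hV
    split_ifs at hR <;> linarith

lemma sub_ne {Y : Finset ℕ} (hT : T ⊆ V) (hTV : T ≠ V) (hY : Y ⊆ T) : Y ≠ V :=
  fun h => hTV (Subset.antisymm hT (h ▸ hY))

theorem MinCex.low_true (M : MinCex G V) (hT : T ⊆ V) (hTV : T ≠ V)
    (hlow : G.R T ≤ 2 * P.A) {u : ℕ} (hu : u ∈ T) (hm : G.m V T u ≠ 0) :
    ∃ φ p, G.IsCol T φ p ∧ φ u = true := by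
  have hRV := M.RV
  have hA := P.hA
  have hK := P.hK
  obtain ⟨φ, p, hc, h⟩ := M.reserve_b hT hTV u hu (fun Y hY hne => by
    have := M.S2 (hY.trans hT) hne (sub_ne hT hTV hY)
    linarith)
  refine ⟨φ, p, hc, ?_⟩
  by_contra hφ
  have hφ' : φ u = false := by simpa using hφ
  exact M.low_nospare hT hTV hlow hc hu hm (h hφ')

theorem MinCex.low_false (M : MinCex G V) (hT : T ⊆ V) (hTV : T ≠ V)
    (hlow : G.R T ≤ 2 * P.A) {u : ℕ} (hu : u ∈ T) (hm : G.m V T u ≠ 0) :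
    ∃ φ p, G.IsCol T φ p ∧ φ u = false := by
  have hRV := M.RV
  have hA := P.hA
  have hK := P.hK
  obtain ⟨φ, p, hc, h⟩ := M.reserve_a hT hTV u hu (fun Y hY hne => by
    have := M.S2 (hY.trans hT) hne (sub_ne hT hTV hY)
    linarith)
  refine ⟨φ, p, hc, ?_⟩
  by_contra hφ
  have hφ' : φ u = true := by simpa using hφ
  exact M.low_nospare hT hTV hlow hc hu hm (h hφ')

theorem MinCex.low_port (M : MinCex G V) (hT : T ⊆ V) (hne : T.Nonempty) (hTV : T ≠ V)
    (hlow : G.R T ≤ 2 * P.A) : ∃ u ∈ T, G.m V T u ≠ 0 := by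
  by_contra hno
  push Not at hno
  obtain ⟨φ0, p0, hc0⟩ := M.card G T (card_lt_card (hT.ssubset_of_ne hTV)) (Good.mono M.good hT)
  have h0 := M.low_n1 hT hne hTV hlow hc0
  have hd : Disjoint T (V \ T) := disjoint_sdiff
  have h1 := R_union G hd
  rw [union_sdiff_of_subset hT] at h1
  have h2 : ∑ x ∈ V \ T, ∑ u ∈ T, G.w u x = 0 := by
    refine sum_eq_zero fun x hx => sum_eq_zero fun u hu => ?_
    have := hno u hu
    unfold Net.m at this
    have := (sum_eq_zero_iff.mp this) x hx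
    have e1 : G.E u x = 0 := by omega
    have e2 : G.L u x = 0 := by omega
    simp [Net.w, e1, e2]
  rw [h2] at h1
  have h3 : (V \ T).Nonempty := by
    rw [sdiff_nonempty]; intro h; exact hTV (Subset.antisymm hT h)
  have h4 := M.good (V \ T) sdiff_subset h3
  have hK := P.hK
  have h5 : (0 : ℤ) ≤ 2 * P.K * (G.n1 T (V \ T) φ0 : ℤ) := by positivity
  linarith

end Pool.Agent.K1H47.Defect
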