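import Pool.Agent.K1H47.Defect.Ext

/-! Modifications of nets. -/

namespace Pool.Agent.K1H47.Defect

open Finset

variable {P : Par}

/-- Reduce the capacities. -/
def Net.red (G : Net P) (p q : ℕ → ℕ) : Net P where
  a v := G.a v - p v
  b v := G.b v - q v
  E := G.E
  L := G.L
  Es := G.Es
  Ls := G.Ls
  E0 := G.E0
  L0 := G.L0
  E1 := G.E1
  Ea u v h := by have := G.Ea u v h; omega
  Eb u v h := by have := G.Eb u v h; omega

/-- Remove one link. -/
def Net.remLink (G : Net P) (x y : ℕ) : Net P where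
  a := G.a
  b := G.b
  E := G.E
  L u v := G.L u v - (if (u = x ∧ v = y) ∨ (u = y ∧ v = x) then 1 else 0)
  Es := G.Es
  Ls u v := by
    rw [G.Ls u v]
    congr 1
    by_cases h : (u = x ∧ v = y) ∨ (u = y ∧ v = x)
    · rw [if_pos h, if_pos (by tauto)]
    · rw [if_neg h, if_neg (by tauto)]
  E0 := G.E0
  L0 u := by rw [G.L0 u]; omega
  E1 := G.E1
  Ea := G.Ea
  Eb := G.Eb

/-- Remove one edge. -/
def Net.remEdge (G : Net P) (x y : ℕ) : Net P where
  a := G.a
  b := G.b
  E u v := if (u = x ∧ v = y) ∨ (u = y ∧ v = x) then 0 else G.E u v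
  L := G.L
  Es u v := by
    by_cases h : (u = x ∧ v = y) ∨ (u = y ∧ v = x)
    · rw [if_pos h, if_pos (by tauto)]
    · rw [if_neg h, if_neg (by tauto), G.Es u v]
  Ls := G.Ls
  E0 u := by rw [G.E0 u]; simp
  L0 := G.L0
  E1 u v := by have := G.E1 u v; split_ifs <;> omega
  Ea u v h := by
    split_ifs at h
    · exact absurd rfl h
    · exact G.Ea u v h
  Eb u v h := by
    split_ifs at h
    · exact absurd rfl h
    · exact G.Eb u v h

lemma R_congr {G H : Net P} {S : Finset ℕ} (ha : ∀ v ∈ S, G.a v = H.a v)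
    (hb : ∀ v ∈ S, G.b v = H.b v) (hE : ∀ u ∈ S, ∀ v ∈ S, G.E u v = H.E u v)
    (hL : ∀ u ∈ S, ∀ v ∈ S, G.L u v = H.L u v) : G.R S = H.R S := by
  refine pot_congr (fun v hv => ?_) (fun u hu v hv => ?_)
  · unfold Net.c; rw [ha v hv, hb v hv]
  · unfold Net.w; rw [hE u hu v hv, hL u hu v hv]

lemma load_congr {G H : Net P} {S : Finset ℕ} {φ : ℕ → Bool} {p : ℕ → ℕ → ℕ}
    (hE : ∀ u ∈ S, ∀ v ∈ S, G.E u v = H.E u v) {u : ℕ} (hu : u ∈ S) :
    G.load S φ p u = H.load S φ p u := by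
  unfold Net.load
  refine sum_congr rfl fun v hv => ?_
  rw [hE u hu v hv]

lemma isCol_congr {G H : Net P} {S : Finset ℕ} {φ : ℕ → Bool} {p : ℕ → ℕ → ℕ}
    (ha : ∀ v ∈ S, G.a v ≤ H.a v)
    (hb : ∀ v ∈ S, G.b v ≤ H.b v) (hE : ∀ u ∈ S, ∀ v ∈ S, G.E u v = H.E u v)
    (hL : ∀ u ∈ S, ∀ v ∈ S, H.L u v ≤ G.L u v) (h : G.IsCol S φ p) : H.IsCol S φ p := by
  refine ⟨fun u hu => ?_, fun u hu v hv hne => ?_⟩
  · rw [← load_congr hE hu]
    refine lt_of_lt_of_le (h.ld u hu) ?_
    unfold Net.cap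
    split_ifs
    · exact ha u hu
    · exact hb u hu
  · exact (hL u hu v hv).trans (h.lk u hu v hv hne)

lemma red_R (G : Net P) (p q : ℕ → ℕ) (S : Finset ℕ) :
    G.R S - 2 * ∑ v ∈ S, (P.A * (p v : ℤ) + P.B * (q v : ℤ)) ≤ (G.red p q).R S := by
  have h := pot_ge (c := G.c) (c' := (G.red p q).c)
    (c1 := fun v => - (P.A * (p v : ℤ) + P.B * (q v : ℤ))) (w := G.w) (w' := (G.red p q).w)
    (w1 := fun _ _ => 0) (S := S) ?_ ?_
  · have e : pot (fun v => - (P.A * (p v : ℤ) + P.B * (q v : ℤ))) (fun _ _ => 0) S =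
      - (2 * ∑ v ∈ S, (P.A * (p v : ℤ) + P.B * (q v : ℤ))) := by
      unfold pot; simp only [sum_neg_distrib, sum_const_zero]; ring
    rw [e] at h
    unfold Net.R; linarith
  · intro v _
    unfold Net.c Net.red
    simp only
    have h1 : (G.a v : ℤ) ≤ ((G.a v - p v : ℕ) : ℤ) + p v := by omega
    have h2 : (G.b v : ℤ) ≤ ((G.b v - q v : ℕ) : ℤ) + q v := by omega
    have h3 := mul_le_mul_of_nonneg_left h1 P.A_pos.le
    have h4 := mul_le_mul_of_nonneg_left h2 P.hB.le
    rw [mul_add] at h3 h4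
    rw [mul_sub, mul_sub]
    linarith
  · intro u _ v _
    unfold Net.w Net.red; simp

lemma red_col {G : Net P} {p q : ℕ → ℕ} {S : Finset ℕ} {φ : ℕ → Bool} {r : ℕ → ℕ → ℕ}
    (h : (G.red p q).IsCol S φ r) :
    G.IsCol S φ r ∧ ∀ v ∈ S, G.load S φ r v + (if φ v = true then p v else q v) <
      G.cap (φ v) v := by
  refine ⟨isCol_congr (G := G.red p q) ?_ ?_ ?_ ?_ h, ?_⟩
  · intro v _; simp only [Net.red]; omega
  · intro v _; simp only [Net.red]; omega
  · intro u _ v _; rfl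
  · intro u _ v _; exact le_refl _
  · intro v hv
    have h1 := h.ld v hv
    have e : (G.red p q).load S φ r v = G.load S φ r v := rfl
    rw [e] at h1
    unfold Net.cap Net.red at h1
    unfold Net.cap
    split_ifs at h1 ⊢
    · simp only at h1; omega
    · simp only at h1; omega

lemma remLink_R (G : Net P) {x y : ℕ} (hxy : x ≠ y) (hL : 1 ≤ G.L x y) (S : Finset ℕ) :
    G.R S + (if x ∈ S ∧ y ∈ S then 2 * P.A else 0) ≤ (G.remLink x y).R S := by
  have h := pot_ge (c := G.c) (c' := (G.remLink x y).c)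
    (c1 := fun _ => 0) (w := G.w) (w' := (G.remLink x y).w)
    (w1 := pr x y (- P.A)) (S := S) ?_ ?_
  · rw [pot_pr] at h
    unfold Net.R
    simp only [sum_const_zero] at h
    split_ifs at h ⊢ <;> linarith
  · intro v _; simp [Net.c, Net.remLink]
  · intro u _ v _
    unfold Net.w Net.remLink pr
    simp only
    by_cases h1 : u = x ∧ v = y
    · obtain ⟨rfl, rfl⟩ := h1
      rw [if_pos (Or.inl ⟨rfl, rfl⟩), if_pos ⟨rfl, rfl⟩, if_neg (fun h => hxy h.1)]
      push_cast [hL]; ring_nf; exact le_refl _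
    · by_cases h2 : u = y ∧ v = x
      · obtain ⟨rfl, rfl⟩ := h2
        rw [if_pos (Or.inr ⟨rfl, rfl⟩), if_neg (fun h => hxy h.2), if_pos ⟨rfl, rfl⟩]
        rw [G.Ls] at hL
        push_cast [hL]; ring_nf; exact le_refl _
      · rw [if_neg (by tauto), if_neg h1, if_neg h2]; simp

lemma remEdge_R (G : Net P) {x y : ℕ} (hxy : x ≠ y) (hE : G.E x y = 1) (S : Finset ℕ) :
    G.R S + (if x ∈ S ∧ y ∈ S then 2 * P.D else 0) ≤ (G.remEdge x y).R S := by
  have h := pot_ge (c := G.c) (c' := (G.remEdge x y).c)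
    (c1 := fun _ => 0) (w := G.w) (w' := (G.remEdge x y).w)
    (w1 := pr x y (- P.D)) (S := S) ?_ ?_
  · rw [pot_pr] at h
    unfold Net.R
    simp only [sum_const_zero] at h
    split_ifs at h ⊢ <;> linarith
  · intro v _; simp [Net.c, Net.remEdge]
  · intro u _ v _
    unfold Net.w Net.remEdge pr
    simp only
    by_cases h1 : u = x ∧ v = y
    · obtain ⟨rfl, rfl⟩ := h1
      rw [if_pos (Or.inl ⟨rfl, rfl⟩), if_pos ⟨rfl, rfl⟩, if_neg (fun h => hxy h.1), hE]
      push_cast; ring_nf; exact le_refl _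
    · by_cases h2 : u = y ∧ v = x
      · obtain ⟨rfl, rfl⟩ := h2
        rw [if_pos (Or.inr ⟨rfl, rfl⟩), if_neg (fun h => hxy h.2), if_pos ⟨rfl, rfl⟩]
        rw [G.Es] at hE
        rw [hE]; push_cast; ring_nf; exact le_refl _
      · rw [if_neg (by tauto), if_neg h1, if_neg h2]; simp

/-- Edge and link totals. -/
def Net.es (G : Net P) (V : Finset ℕ) : ℕ := ∑ u ∈ V, ∑ v ∈ V, G.E u v
def Net.ls (G : Net P) (V : Finset ℕ) : ℕ := ∑ u ∈ V, ∑ v ∈ V, G.L u v

lemma remEdge_es (G : Net P) {x y : ℕ} {V : Finset ℕ} (hx : x ∈ V) (hy : y ∈ V)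
    (hE : G.E x y = 1) : (G.remEdge x y).es V < G.es V := by
  unfold Net.es
  refine sum_lt_sum (fun u _ => sum_le_sum fun v _ => ?_) ⟨x, hx, sum_lt_sum (fun v _ => ?_)
    ⟨y, hy, ?_⟩⟩
  · simp only [Net.remEdge]; split_ifs <;> omega
  · simp only [Net.remEdge]; split_ifs <;> omega
  · simp only [Net.remEdge]; rw [if_pos (by simp)]; omega

lemma remLink_ls (G : Net P) {x y : ℕ} {V : Finset ℕ} (hx : x ∈ V) (hy : y ∈ V)
    (hL : 1 ≤ G.L x y) : (G.remLink x y).ls V < G.ls V := by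
  unfold Net.ls
  refine sum_lt_sum (fun u _ => sum_le_sum fun v _ => ?_) ⟨x, hx, sum_lt_sum (fun v _ => ?_)
    ⟨y, hy, ?_⟩⟩
  · simp only [Net.remLink]; omega
  · simp only [Net.remLink]; omega
  · simp only [Net.remLink]; rw [if_pos (by simp)]; omega

/-- Adding an edge back. -/
lemma addEdge {G : Net P} {x y : ℕ} {V : Finset ℕ} {φ : ℕ → Bool} {r : ℕ → ℕ → ℕ}
    (h : (G.remEdge x y).IsCol V φ r) (hx : x ∈ V) (hy : y ∈ V) (hxy : x ≠ y)
    (hs : φ x = φ y → (G.remEdge x y).load V φ r x + 1 < G.cap (φ x) x ∧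
      (G.remEdge x y).load V φ r y + 1 < G.cap (φ y) y) : G.IsCol V φ r := by
  have hE1 := G.E1 x y
  have key : ∀ s t : ℕ, t ∈ V → ((s = x ∧ t = y) ∨ (s = y ∧ t = x)) →
      G.load V φ r s ≤ (G.remEdge x y).load V φ r s + (if φ t = φ s then 1 else 0) := by
    intro s t ht hst
    have hst' : s ≠ t := by
      rcases hst with ⟨rfl, rfl⟩ | ⟨rfl, rfl⟩
      · exact hxy
      · exact hxy.symm
    unfold Net.load
    rw [← sum_erase_add _ _ ht, ← sum_erase_add V (fun v => r s v +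
      if φ v = φ s then (G.remEdge x y).E s v else 0) ht]
    have e1 : ∑ v ∈ V.erase t, (r s v + if φ v = φ s then G.E s v else 0) =
        ∑ v ∈ V.erase t, (r s v + if φ v = φ s then (G.remEdge x y).E s v else 0) := by
      refine sum_congr rfl fun v hv => ?_
      have hvt : v ≠ t := ne_of_mem_erase hv
      have : (G.remEdge x y).E s v = G.E s v := by
        simp only [Net.remEdge]
        rw [if_neg]
        rintro (⟨h1, h2⟩ | ⟨h1, h2⟩)
        · rcases hst with ⟨_, h4⟩ | ⟨h3, h4⟩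
          · exact hvt (h2.trans h4.symm)
          · exact hxy (h1.symm.trans h3)
        · rcases hst with ⟨h3, _⟩ | ⟨_, h4⟩
          · exact hxy (h3.symm.trans h1)
          · exact hvt (h2.trans h4.symm)
      rw [this]
    rw [e1]
    have hst1 := G.E1 s t
    split_ifs <;> omega
  refine ⟨fun u hu => ?_, fun u hu v hv hne => h.lk u hu v hv hne⟩
  have hl := h.ld u hu
  have hcap : (G.remEdge x y).cap (φ u) u = G.cap (φ u) u := rfl
  rw [hcap] at hl
  by_cases hux : u = x
  · subst hux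
    have := key u y hy (Or.inl ⟨rfl, rfl⟩)
    by_cases hc : φ u = φ y
    · have := (hs hc).1
      rw [if_pos hc.symm] at *
      omega
    · rw [if_neg (fun h => hc h.symm)] at *
      omega
  · by_cases huy : u = y
    · subst huy
      have := key u x hx (Or.inr ⟨rfl, rfl⟩)
      by_cases hc : φ x = φ u
      · have := (hs hc).2
        rw [if_pos hc] at *
        omega
      · rw [if_neg hc] at *
        omega
    · have e : G.load V φ r u = (G.remEdge x y).load V φ r u := by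
        unfold Net.load
        refine sum_congr rfl fun v _ => ?_
        have : (G.remEdge x y).E u v = G.E u v := by
          simp only [Net.remEdge]
          rw [if_neg]
          rintro (⟨h1, _⟩ | ⟨h1, _⟩)
          · exact hux h1
          · exact huy h1
        rw [this]
      rw [e]; exact hl

/-- Adding a link back when the ends agree. -/
lemma addLink_same {G : Net P} {x y : ℕ} {V : Finset ℕ} {φ : ℕ → Bool} {r : ℕ → ℕ → ℕ}
    (h : (G.remLink x y).IsCol V φ r) (hs : φ x = φ y) : G.IsCol V φ r := by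
  refine ⟨fun u hu => h.ld u hu, fun u hu v hv hne => ?_⟩
  have := h.lk u hu v hv hne
  have e : (G.remLink x y).L u v = G.L u v := by
    simp only [Net.remLink]
    rw [if_neg]
    · rfl
    · rintro (⟨rfl, rfl⟩ | ⟨rfl, rfl⟩)
      · exact hne hs
      · exact hne hs.symm
  rw [e] at this; exact this

/-- Adding a link back, paid by `s`. -/
lemma addLink {G : Net P} {x y s t : ℕ} {V : Finset ℕ} {φ : ℕ → Bool} {r : ℕ → ℕ → ℕ}
    (h : (G.remLink x y).IsCol V φ r) (hst : (s = x ∧ t = y) ∨ (s = y ∧ t = x))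
    (hs : (G.remLink x y).load V φ r s + 1 < G.cap (φ s) s) : G.Colorable V := by
  refine ⟨φ, fun u v => r u v + if u = s ∧ v = t then 1 else 0, fun u hu => ?_,
    fun u hu v hv hne => ?_⟩
  · have e : G.load V φ (fun u v => r u v + if u = s ∧ v = t then 1 else 0) u =
      (G.remLink x y).load V φ r u + ∑ v ∈ V, (if u = s ∧ v = t then 1 else 0) := by
      unfold Net.load
      rw [← sum_add_distrib]
      refine sum_congr rfl fun v _ => ?_
      have : (G.remLink x y).E u v = G.E u v := rfl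
      rw [this]; ring
    rw [e]
    by_cases hus : u = s
    · subst hus
      have : ∑ v ∈ V, (if u = u ∧ v = t then 1 else 0) ≤ 1 := by
        simp only [true_and]
        rw [sum_ite_eq']; split_ifs <;> omega
      omega
    · have : ∑ v ∈ V, (if u = s ∧ v = t then 1 else 0) = 0 := by
        refine sum_eq_zero fun v _ => ?_
        rw [if_neg (fun h => hus h.1)]
      rw [this]; exact h.ld u hu
  · have h1 := h.lk u hu v hv hne
    simp only [Net.remLink] at h1
    by_cases h2 : (u = x ∧ v = y) ∨ (u = y ∧ v = x)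
    · rw [if_pos h2] at h1
      have h3 : (u = s ∧ v = t) ∨ (v = s ∧ u = t) := by
        rcases hst with ⟨rfl, rfl⟩ | ⟨rfl, rfl⟩ <;> tauto
      rcases h3 with h3 | h3
      · rw [if_pos h3]; omega
      · rw [if_pos h3]; omega
    · rw [if_neg h2] at h1
      omega

lemma Good.mono {G : Net P} {U V : Finset ℕ} (h : G.Good V) (hU : U ⊆ V) : G.Good U :=
  fun S hS hne => h S (hS.trans hU) hne

/-- A minimal counterexample. -/
structure MinCex (G : Net P) (V : Finset ℕ) : Prop where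
  good : G.Good V
  unc : ¬ G.Colorable V
  card : ∀ (H : Net P) (U : Finset ℕ), U.card < V.card → H.Good U → H.Colorable U
  edge : ∀ (H : Net P) (U : Finset ℕ), U.card = V.card → H.es U < G.es V → H.Good U →
    H.Colorable U
  link : ∀ (H : Net P) (U : Finset ℕ), U.card = V.card → H.es U = G.es V →
    H.ls U < G.ls V → H.Good U → H.Colorable U

lemma exists_minCex {G : Net P} {V : Finset ℕ} (hg : G.Good V) (hu : ¬ G.Colorable V) :
    ∃ (H : Net P) (U : Finset ℕ), MinCex H U := by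
  classical
  -- minimise the number of vertices
  have e1 : ∃ n, ∃ (H : Net P) (U : Finset ℕ), U.card = n ∧ H.Good U ∧ ¬ H.Colorable U :=
    ⟨_, G, V, rfl, hg, hu⟩
  set n := Nat.find e1 with hn
  have e2 : ∃ m, ∃ (H : Net P) (U : Finset ℕ), U.card = n ∧ H.es U = m ∧ H.Good U ∧
      ¬ H.Colorable U := by
    obtain ⟨H, U, h1, h2, h3⟩ := Nat.find_spec e1
    exact ⟨_, H, U, h1, rfl, h2, h3⟩
  set m := Nat.find e2 with hm
  have e3 : ∃ l, ∃ (H : Net P) (U : Finset ℕ), U.card = n ∧ H.es U = m ∧ H.ls U = l ∧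
      H.Good U ∧ ¬ H.Colorable U := by
    obtain ⟨H, U, h1, h2, h3, h4⟩ := Nat.find_spec e2
    exact ⟨_, H, U, h1, h2, rfl, h3, h4⟩
  obtain ⟨H, U, h1, h2, h3, h4, h5⟩ := Nat.find_spec e3
  refine ⟨H, U, h4, h5, ?_, ?_, ?_⟩
  · intro H' U' hc hg'
    by_contra hu'
    rw [h1] at hc
    exact Nat.find_min e1 hc ⟨H', U', rfl, hg', hu'⟩
  · intro H' U' hc he hg'
    by_contra hu'
    rw [h2] at he
    exact Nat.find_min e2 he ⟨H', U', hc.trans h1, rfl, hg', hu'⟩
  · intro H' U' hc he hl hg'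
    by_contra hu'
    rw [h3] at hl
    exact Nat.find_min e3 hl ⟨H', U', hc.trans h1, he.trans h2, rfl, hg', hu'⟩

end Pool.Agent.K1H47.Defect
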