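import Pool.Agent.K1H47.Defect.Hub

/-! Closing a low set with one extra vertex. -/

namespace Pool.Agent.K1H47.Defect

open Finset

variable {P : Par} {G : Net P} {V T : Finset ℕ} {φ φ' : ℕ → Bool} {p p' : ℕ → ℕ → ℕ}

/-- Attach a vertex `z` with capacities `(A0, B0)` by single links to the vertices of `Q`. -/
def Net.star (G : Net P) (Q : Finset ℕ) (z A0 B0 : ℕ) : Net P where
  a v := if v = z then A0 else G.a v
  b v := if v = z then B0 else G.b v
  E u v := if u = z ∨ v = z then 0 else G.E u v
  L u v := if u = z then (if v = z then 0 else if v ∈ Q then 1 else 0) else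
    if v = z then (if u ∈ Q then 1 else 0) else G.L u v
  Es u v := by
    by_cases h1 : u = z <;> by_cases h2 : v = z <;> simp [h1, h2, G.Es u v]
  Ls u v := by
    by_cases h1 : u = z <;> by_cases h2 : v = z <;> simp [h1, h2, G.Ls u v]
  E0 u := by by_cases h1 : u = z <;> simp [h1, G.E0 u]
  L0 u := by by_cases h1 : u = z <;> simp [h1, G.L0 u]
  E1 u v := by
    by_cases h1 : u = z <;> by_cases h2 : v = z <;> simp [h1, h2, G.E1 u v]
  Ea u v h := by
    by_cases h1 : u = z
    · rw [if_pos (Or.inl h1)] at h; exact absurd rfl h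
    · rw [if_neg h1]
      split_ifs at h
      · exact absurd rfl h
      · exact G.Ea u v h
  Eb u v h := by
    by_cases h1 : u = z
    · rw [if_pos (Or.inl h1)] at h; exact absurd rfl h
    · rw [if_neg h1]
      split_ifs at h
      · exact absurd rfl h
      · exact G.Eb u v h

lemma star_R (G : Net P) (Q : Finset ℕ) {z A0 B0 : ℕ} {Y : Finset ℕ} (hz : z ∉ Y) :
    (G.star Q z A0 B0).R Y = G.R Y := by
  have hn : ∀ v ∈ Y, v ≠ z := fun v hv h => hz (h ▸ hv)
  refine R_congr (fun v hv => ?_) (fun v hv => ?_) (fun u hu v hv => ?_) (fun u hu v hv => ?_)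
  · simp only [Net.star]; rw [if_neg (hn v hv)]
  · simp only [Net.star]; rw [if_neg (hn v hv)]
  · simp only [Net.star]; rw [if_neg]; rintro (h | h); exacts [hn u hu h, hn v hv h]
  · simp only [Net.star]; rw [if_neg (hn u hu), if_neg (hn v hv)]

lemma star_R_insert (G : Net P) (Q : Finset ℕ) {z A0 B0 : ℕ} {Y : Finset ℕ} (hz : z ∉ Y) :
    G.R Y + 2 * (P.A * (A0 : ℤ) + P.B * ((B0 : ℤ) - 1)) - 2 * P.A * (Q.card : ℤ) ≤
      (G.star Q z A0 B0).R (insert z Y) := by
  have h1 : (G.star Q z A0 B0).R (insert z Y) = _ := pot_insert (G.star Q z A0 B0).ws hz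
  have h2 : pot (G.star Q z A0 B0).c (G.star Q z A0 B0).w Y = G.R Y := star_R G Q hz
  have h3 : (G.star Q z A0 B0).c z = P.A * (A0 : ℤ) + P.B * ((B0 : ℤ) - 1) := by
    simp [Net.c, Net.star]
  have h4 : (G.star Q z A0 B0).w z z = 0 := Net.w0 _ _
  have h5 : ∑ x ∈ Y, (G.star Q z A0 B0).w z x ≤ P.A * (Q.card : ℤ) := by
    have e1 : ∀ x ∈ Y, (G.star Q z A0 B0).w z x = if x ∈ Q then P.A else 0 := by
      intro x hx
      have hxz : x ≠ z := fun h => hz (h ▸ hx)
      simp only [Net.w, Net.star]
      by_cases hxQ : x ∈ Q <;> simp [hxz, hxQ]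
    rw [sum_congr rfl e1, ← sum_filter, sum_const, nsmul_eq_mul, mul_comm]
    refine mul_le_mul_of_nonneg_left ?_ P.A_pos.le
    have : (Y.filter (· ∈ Q)).card ≤ Q.card := card_le_card (fun x hx => (mem_filter.mp hx).2)
    exact_mod_cast this
  rw [h1, h2, h3, h4]
  linarith

/-- The ports of `T`. -/
def Net.ports (G : Net P) (V T : Finset ℕ) : Finset ℕ := T.filter fun u => G.m V T u ≠ 0

lemma mem_ports {u : ℕ} : u ∈ G.ports V T ↔ u ∈ T ∧ G.m V T u ≠ 0 := by
  unfold Net.ports; rw [mem_filter]

lemma star_unc (G : Net P) {Q : Finset ℕ} {z s : ℕ} (hz : z ∉ T) (hQ : Q ⊆ T) (hs : s ≤ Q.card)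
    (hsp : ∀ φ p, G.IsCol T φ p → ∀ u ∈ Q, ¬ (G.load T φ p u + 1 < G.cap (φ u) u))
    (hcount : ∀ φ p, G.IsCol T φ p → (Q.filter fun u => φ u = true).card = s) :
    ¬ (G.star Q z (Q.card - s) s).Colorable (insert z T) := by
  rintro ⟨χ, q, h⟩
  have hn : ∀ v ∈ T, v ≠ z := fun v hv h => hz (h ▸ hv)
  have hload : ∀ u ∈ T, (G.star Q z (Q.card - s) s).load (insert z T) χ q u =
      q u z + G.load T χ q u := by
    intro u hu
    unfold Net.load
    rw [sum_insert hz]
    have e1 : (G.star Q z (Q.card - s) s).E u z = 0 := by simp [Net.star]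
    rw [e1]
    congr 1
    · simp
    · refine sum_congr rfl fun v hv => ?_
      have e2 : (G.star Q z (Q.card - s) s).E u v = G.E u v := by
        simp [Net.star, hn u hu, hn v hv]
      rw [e2]
  have hcap : ∀ u ∈ T, (G.star Q z (Q.card - s) s).cap (χ u) u = G.cap (χ u) u := by
    intro u hu; unfold Net.cap Net.star; simp [hn u hu]
  have hcT : G.IsCol T χ q := by
    refine ⟨fun u hu => ?_, fun u hu v hv hne => ?_⟩
    · have h1 := h.ld u (mem_insert_of_mem hu)
      rw [hload u hu, hcap u hu] at h1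
      omega
    · have h1 := h.lk u (mem_insert_of_mem hu) v (mem_insert_of_mem hv) hne
      have e2 : (G.star Q z (Q.card - s) s).L u v = G.L u v := by
        simp [Net.star, hn u hu, hn v hv]
      rw [e2] at h1; exact h1
  have hq : ∀ u ∈ Q, q u z = 0 := by
    intro u hu
    have h1 := h.ld u (mem_insert_of_mem (hQ hu))
    rw [hload u (hQ hu), hcap u (hQ hu)] at h1
    have h2 := hsp χ q hcT u hu
    omega
  have hpay : ∀ u ∈ Q, χ u ≠ χ z → 1 ≤ q z u := by
    intro u hu hne
    have h1 := h.lk u (mem_insert_of_mem (hQ hu)) z (mem_insert_self _ _) hne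
    have e2 : (G.star Q z (Q.card - s) s).L u z = 1 := by
      simp [Net.star, hn u (hQ hu), hu]
    rw [e2, hq u hu] at h1
    omega
  have hzload : (Q.filter fun u => χ u ≠ χ z).card ≤
      (G.star Q z (Q.card - s) s).load (insert z T) χ q z := by
    have h1 : (Q.filter fun u => χ u ≠ χ z).card ≤
        ∑ u ∈ Q.filter (fun u => χ u ≠ χ z), (q z u + if χ u = χ z then
          (G.star Q z (Q.card - s) s).E z u else 0) := by
      rw [card_eq_sum_ones]
      refine sum_le_sum fun u hu => ?_
      rw [mem_filter] at hu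
      have := hpay u hu.1 hu.2
      omega
    refine h1.trans ?_
    unfold Net.load
    refine sum_le_sum_of_subset ?_
    intro u hu
    exact mem_insert_of_mem (hQ (mem_filter.mp hu).1)
  have hz' := h.ld z (mem_insert_self _ _)
  have hc := hcount χ q hcT
  have hsplit := card_filter_add_card_filter_not (s := Q) (fun u => χ u = true)
  cases hcz : χ z
  · rw [hcz] at hz' hzload
    have e1 : (G.star Q z (Q.card - s) s).cap false z = s := by
      simp [Net.cap, Net.star]
    have e2 : (Q.filter fun u => χ u ≠ false) = Q.filter fun u => χ u = true := by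
      refine filter_congr fun u _ => ?_
      simp
    rw [e1] at hz'
    rw [e2, hc] at hzload
    omega
  · rw [hcz] at hz' hzload
    have e1 : (G.star Q z (Q.card - s) s).cap true z = Q.card - s := by
      simp [Net.cap, Net.star]
    rw [e1] at hz'
    have e2 : (Q.filter fun u => χ u ≠ true).card = Q.card - s := by
      simp only [ne_eq]
      rw [hc] at hsplit
      rw [← hsplit]
      omega
    rw [e2] at hzload
    omega

/-- If all colourings of `T` have exactly `s` ports coloured `true` then `T` is all of the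
minimal counterexample but one vertex without edges. -/
theorem MinCex.low_aux (M : MinCex G V) (hT : T ⊆ V) (hTV : T ≠ V)
    (hlow : G.R T ≤ 2 * P.A) {s : ℕ} (hs : 1 ≤ s) (hsQ : s < (G.ports V T).card)
    (hcount : ∀ φ p, G.IsCol T φ p →
      ((G.ports V T).filter fun u => φ u = true).card = s)
    (hR : ∀ Y ⊆ T, Y.Nonempty → 2 * P.K * (s : ℤ) < G.R Y) :
    V.card = T.card + 1 ∧ G.es V ≤ G.es T := by
  have hA := P.hA
  have hB := P.hB
  have hK := P.hK
  have hW : (V \ T).Nonempty := by
    rw [sdiff_nonempty]; intro h; exact hTV (Subset.antisymm hT h)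
  obtain ⟨z, hz⟩ := hW
  have hzT : z ∉ T := (mem_sdiff.mp hz).2
  have hQ : G.ports V T ⊆ T := filter_subset _ _
  have hunc := star_unc G hzT hQ hsQ.le
    (fun φ p hc u hu => M.low_nospare hT hTV hlow hc (mem_ports.mp hu).1 (mem_ports.mp hu).2)
    hcount
  set Q := G.ports V T with hQdef
  have hgood : (G.star Q z (Q.card - s) s).Good (insert z T) := by
    intro S hS hSne
    have hsm : ((Q.card - s : ℕ) : ℤ) = (Q.card : ℤ) - s := by
      rw [Nat.cast_sub hsQ.le]
    by_cases hzS : z ∈ S
    · have hYsub : S.erase z ⊆ T := by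
        intro x hx
        rcases mem_insert.mp (hS (mem_of_mem_erase hx)) with h | h
        · exact absurd h (ne_of_mem_erase hx)
        · exact h
      have h1 := star_R_insert (A0 := Q.card - s) (B0 := s) G Q (notMem_erase z S)
      rw [insert_erase hzS, hsm] at h1
      by_cases hYne : (S.erase z).Nonempty
      · have h2 := hR _ hYsub hYne
        rw [hA] at h1
        nlinarith [h1, h2]
      · rw [not_nonempty_iff_eq_empty] at hYne
        have e : S = {z} := by
          rw [← insert_erase hzS, hYne]; rfl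
        rw [e]
        have e2 : (G.star Q z (Q.card - s) s).R {z} =
            2 * (P.A * ((Q.card - s : ℕ) : ℤ) + P.B * ((s : ℤ) - 1)) := by
          unfold Net.R
          rw [pot_singleton, Net.w0]
          simp [Net.c, Net.star]
        rw [e2]
        have h3 : (0 : ℤ) ≤ P.A * ((Q.card - s : ℕ) : ℤ) := by
          have := P.A_pos; positivity
        have h4 : (0 : ℤ) ≤ P.B * ((s : ℤ) - 1) := by
          apply mul_nonneg hB.le
          have : (1 : ℤ) ≤ (s : ℤ) := by exact_mod_cast hs
          linarith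
        linarith
    · have hYsub : S ⊆ T := by
        intro x hx
        rcases mem_insert.mp (hS hx) with h | h
        · exact absurd (h ▸ hx) hzS
        · exact h
      rw [star_R G Q hzS]
      exact M.good S (hYsub.trans hT) hSne
  have hcard : (insert z T).card = T.card + 1 := card_insert_of_notMem hzT
  have hlt : T.card < V.card := card_lt_card (hT.ssubset_of_ne hTV)
  have hVc : V.card = T.card + 1 := by
    by_contra hne
    exact hunc (M.card _ _ (by rw [hcard]; omega) hgood)
  refine ⟨hVc, ?_⟩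
  by_contra hlt'
  push Not at hlt'
  have hes : (G.star Q z (Q.card - s) s).es (insert z T) = G.es T := by
    unfold Net.es
    rw [sum_insert hzT, sum_insert hzT]
    have hn : ∀ v ∈ T, v ≠ z := fun v hv h => hzT (h ▸ hv)
    have e1 : ∀ v, (G.star Q z (Q.card - s) s).E z v = 0 := fun v => by simp [Net.star]
    have e2 : ∀ v, (G.star Q z (Q.card - s) s).E v z = 0 := fun v => by simp [Net.star]
    simp only [e1, sum_const_zero, zero_add]
    refine sum_congr rfl fun u hu => ?_
    rw [sum_insert hzT, e2, zero_add]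
    refine sum_congr rfl fun v hv => ?_
    simp [Net.star, hn u hu, hn v hv]
  exact hunc (M.edge _ _ (by rw [hcard, hVc]) (by rw [hes]; exact hlt') hgood)

lemma ports_count_le (G : Net P) (V T : Finset ℕ) (φ : ℕ → Bool) :
    ((G.ports V T).filter fun u => φ u = true).card ≤ G.n1 T (V \ T) φ := by
  rw [n1_eq, card_eq_sum_ones]
  have h1 : ∑ u ∈ (G.ports V T).filter (fun u => φ u = true), 1 ≤
      ∑ u ∈ (G.ports V T).filter (fun u => φ u = true), (if φ u = true then G.m V T u else 0) := by
    refine sum_le_sum fun u hu => ?_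
    rw [mem_filter, mem_ports] at hu
    rw [if_pos hu.2]
    have := hu.1.2
    omega
  refine h1.trans (sum_le_sum_of_subset ?_)
  exact (filter_subset _ _).trans (filter_subset _ _)

/-- Case 1. -/
theorem MinCex.low_big_one (M : MinCex G V) (hT : T ⊆ V) (hTV : T ≠ V) (h2 : 2 ≤ T.card)
    (hlow : G.R T ≤ 2 * P.A) (hx : G.R T - G.R V - 2 * P.B < 4 * P.K) :
    V.card = T.card + 1 ∧ G.es V ≤ G.es T := by
  have hne : T.Nonempty := by rw [← card_pos]; omega
  have hK := P.hK
  have hRV := M.RV
  have hA := P.hA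
  have hle1 : ∀ φ p, G.IsCol T φ p →
      ((G.ports V T).filter fun u => φ u = true).card ≤ 1 := by
    intro φ p hc
    have h1 := M.low_n1 hT hne hTV hlow hc
    have h3 := ports_count_le G V T φ
    by_contra h4
    push Not at h4
    have h5 : (2 : ℤ) ≤ (G.n1 T (V \ T) φ : ℤ) := by
      have : 2 ≤ G.n1 T (V \ T) φ := by omega
      exact_mod_cast this
    have h6 := mul_le_mul_of_nonneg_left h5 (show (0 : ℤ) ≤ 2 * P.K by positivity)
    linarith
  have hcount : ∀ φ p, G.IsCol T φ p →
      ((G.ports V T).filter fun u => φ u = true).card = 1 := by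
    intro φ p hc
    have h1 := hle1 φ p hc
    by_contra h3
    have h4 : ((G.ports V T).filter fun u => φ u = true).card = 0 := by omega
    rw [card_eq_zero] at h4
    obtain ⟨u, hu, hmu⟩ := M.low_port hT hne hTV hlow
    obtain ⟨φ', p', hc', hφ'⟩ := M.low_true hT hTV hlow hu hmu
    have hno : ∀ v ∈ T, G.m V T v ≠ 0 → φ v ≠ true := by
      intro v hv hmv hφ
      have : v ∈ (G.ports V T).filter fun u => φ u = true :=
        mem_filter.mpr ⟨mem_ports.mpr ⟨hv, hmv⟩, hφ⟩
      rw [h4] at this
      exact absurd this (notMem_empty _)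
    exact M.antichain hT hTV h2 hlow hc hc' (fun v hv hmv hφ => absurd hφ (hno v hv hmv))
      ⟨u, hu, hmu, by simpa using hno u hu hmu, hφ'⟩
  obtain ⟨u, hu, hmu⟩ := M.low_port hT hne hTV hlow
  obtain ⟨φ, p, hc, hφ⟩ := M.low_false hT hTV hlow hu hmu
  have h1 := hcount φ p hc
  have hcard : 1 < (G.ports V T).card := by
    rw [← h1]
    refine card_lt_card ⟨filter_subset _ _, fun hsub => ?_⟩
    have := hsub (mem_ports.mpr ⟨hu, hmu⟩)
    rw [mem_filter, hφ] at this
    exact Bool.noConfusion this.2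
  refine M.low_aux hT hTV hlow (le_refl 1) hcard hcount (fun Y hY hYne => ?_)
  have := M.S2 (hY.trans hT) hYne (sub_ne hT hTV hY)
  push_cast
  linarith

/-- A low singleton is a `(1,1)`-vertex with at most two items. -/
theorem MinCex.low_single (M : MinCex G V) {x : ℕ} (hx : x ∈ V) (hxV : {x} ≠ V)
    (hlow : G.R {x} ≤ 2 * P.A) : G.a x = 1 ∧ G.b x = 1 ∧ G.m V {x} x ≤ 2 := by
  have hT : {x} ⊆ V := singleton_subset_iff.mpr hx
  have hne : ({x} : Finset ℕ).Nonempty := singleton_nonempty x
  have hRV := M.RV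
  have hK := P.hK
  have hA := P.hA
  have hBK := P.hBK
  obtain ⟨u, hu, hmu⟩ := M.low_port hT hne hxV hlow
  have hux : u = x := mem_singleton.mp hu
  subst hux
  obtain ⟨φ1, p1, hc1, hφ1⟩ := M.low_true hT hxV hlow hu hmu
  obtain ⟨φ2, p2, hc2, hφ2⟩ := M.low_false hT hxV hlow hu hmu
  have ha : 0 < G.a u := by
    have := hc1.ld u hu
    rw [hφ1] at this
    simp only [Net.cap] at this
    rw [if_pos trivial] at this
    omega
  have hb : 0 < G.b u := by
    have := hc2.ld u hu
    rw [hφ2] at this
    simp only [Net.cap] at this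
    rw [if_neg (by simp)] at this
    omega
  have hcol1 : G.IsCol {u} (fun _ => true) (fun _ _ => 0) := by
    refine ⟨fun v hv => ?_, fun v _ w _ hne => absurd rfl hne⟩
    have hv' := mem_singleton.mp hv
    subst hv'
    unfold Net.load Net.cap
    simp [G.E0, ha]
  have hcol2 : G.IsCol {u} (fun _ => false) (fun _ _ => 0) := by
    refine ⟨fun v hv => ?_, fun v _ w _ hne => absurd rfl hne⟩
    have hv' := mem_singleton.mp hv
    subst hv'
    unfold Net.load Net.cap
    simp [G.E0, hb]
  have h1 := M.low_nospare hT hxV hlow hcol1 hu hmu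
  have h2 := M.low_nospare hT hxV hlow hcol2 hu hmu
  have e1 : G.load {u} (fun _ => true) (fun _ _ => 0) u = 0 := by
    unfold Net.load; simp [G.E0]
  have e2 : G.load {u} (fun _ => false) (fun _ _ => 0) u = 0 := by
    unfold Net.load; simp [G.E0]
  rw [e1] at h1
  rw [e2] at h2
  unfold Net.cap at h1 h2
  simp at h1 h2
  refine ⟨by omega, by omega, ?_⟩
  have h3 := M.low_n1 hT hne hxV hlow hcol1
  rw [n1_eq] at h3
  simp at h3
  by_contra h4
  push Not at h4
  have h5 : (3 : ℤ) ≤ (G.m V {u} u : ℤ) := by exact_mod_cast h4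
  have h6 := mul_le_mul_of_nonneg_left h5 (show (0 : ℤ) ≤ 2 * P.K by positivity)
  linarith

lemma R_single_11 (G : Net P) {x : ℕ} (ha : G.a x = 1) (hb : G.b x = 1) :
    G.R {x} = 2 * P.A := by
  unfold Net.R
  rw [pot_singleton, Net.w0]
  simp [Net.c, ha, hb]

/-- A low set with at least two vertices misses only one vertex, which has no edges. -/
theorem MinCex.low_big (M : MinCex G V) (hT : T ⊆ V) (hTV : T ≠ V) (h2 : 2 ≤ T.card)
    (hlow : G.R T ≤ 2 * P.A) : V.card = T.card + 1 ∧ G.es V ≤ G.es T := by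
  have hne : T.Nonempty := by rw [← card_pos]; omega
  have hK := P.hK
  have hB := P.hB
  have hRV := M.RV
  have hA := P.hA
  have hBK := P.hBK
  have hTlt : T.card < V.card := card_lt_card (hT.ssubset_of_ne hTV)
  by_cases hx : G.R T - G.R V - 2 * P.B < 4 * P.K
  · exact M.low_big_one hT hTV h2 hlow hx
  push Not at hx
  have hle2 : ∀ φ p, G.IsCol T φ p →
      ((G.ports V T).filter fun u => φ u = true).card ≤ 2 := by
    intro φ p hc
    have h1 := M.low_n1 hT hne hTV hlow hc
    have h3 := ports_count_le G V T φ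
    by_contra h4
    push Not at h4
    have h5 : (3 : ℤ) ≤ (G.n1 T (V \ T) φ : ℤ) := by
      have : 3 ≤ G.n1 T (V \ T) φ := by omega
      exact_mod_cast this
    have h6 := mul_le_mul_of_nonneg_left h5 (show (0 : ℤ) ≤ 2 * P.K by positivity)
    linarith
  have hY4 : ∀ Y ⊆ T, Y.Nonempty → 4 * P.K < G.R Y := by
    intro Y hY hYne
    by_cases hYlow : G.R Y ≤ 2 * P.A
    · by_cases hYT : Y = T
      · rw [hYT]; linarith
      · have hYlt : Y.card < T.card := card_lt_card (hY.ssubset_of_ne hYT)
        by_cases hY2 : 2 ≤ Y.card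
        · by_cases hx' : G.R Y - G.R V - 2 * P.B < 4 * P.K
          · have := (M.low_big_one (hY.trans hT) (sub_ne hT hTV hY) hY2 hYlow hx').1
            omega
          · push Not at hx'; linarith
        · have hY1 : Y.card = 1 := by
            have := hYne.card_pos; omega
          obtain ⟨x, rfl⟩ := card_eq_one.mp hY1
          have hxV : x ∈ V := hT (hY (mem_singleton_self x))
          obtain ⟨ha, hb, _⟩ := M.low_single hxV (sub_ne hT hTV hY) hYlow
          rw [R_single_11 G ha hb]
          linarith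
    · push Not at hYlow; linarith
  have htwo : ∀ u ∈ T, ∀ u' ∈ T, G.m V T u ≠ 0 → G.m V T u' ≠ 0 →
      ∃ φ p, G.IsCol T φ p ∧ φ u = true ∧ φ u' = true := by
    intro u hu u' hu' hm hm'
    have key : ∀ Y ⊆ T, Y.Nonempty → -2 * P.B < G.R Y - 2 * ∑ v ∈ Y,
        (P.A * (((0 : ℕ)) : ℤ) + P.B * ((if v = u ∨ v = u' then 1 else 0 : ℕ) : ℤ)) := by
      intro Y hY hYne
      have h3 := hY4 Y hY hYne
      have h4 : ∑ v ∈ Y, (P.A * (((0 : ℕ)) : ℤ) +
          P.B * ((if v = u ∨ v = u' then 1 else 0 : ℕ) : ℤ)) ≤ P.B + P.B := by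
        refine le_trans ?_ (add_le_add (sum_single Y u P.B P.hB.le)
          (sum_single Y u' P.B P.hB.le))
        rw [← sum_add_distrib]
        refine sum_le_sum fun v _ => ?_
        by_cases h1 : v = u <;> by_cases h2 : v = u' <;> simp [h1, h2] <;> split_ifs <;> linarith
      linarith
    obtain ⟨φ, p, hc, hres⟩ := M.reserve hT hTV (fun _ => 0)
      (fun v => if v = u ∨ v = u' then 1 else 0) key
    refine ⟨φ, p, hc, ?_, ?_⟩
    · by_contra hφ
      have hφ' : φ u = false := by simpa using hφ
      have h3 := hres u hu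
      refine M.low_nospare hT hTV hlow hc hu hm ?_
      rw [hφ'] at h3 ⊢
      simpa using h3
    · by_contra hφ
      have hφ' : φ u' = false := by simpa using hφ
      have h3 := hres u' hu'
      refine M.low_nospare hT hTV hlow hc hu' hm' ?_
      rw [hφ'] at h3 ⊢
      simpa using h3
  obtain ⟨u0, hu0, hm0⟩ := M.low_port hT hne hTV hlow
  -- every colouring colours exactly two ports true
  have hanti : ∀ φ p, G.IsCol T φ p → ∀ u ∈ T, G.m V T u ≠ 0 →
      (∀ v ∈ T, G.m V T v ≠ 0 → φ v = true → v = u) →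
      (∃ u' ∈ T, G.m V T u' ≠ 0 ∧ u' ≠ u) → False := by
    rintro φ p hc u hu hm hone ⟨u', hu', hm', hne'⟩
    obtain ⟨φ', p', hc', h1, h3⟩ := htwo u hu u' hu' hm hm'
    have hφu' : φ u' = false := by
      by_contra h
      exact hne' (hone u' hu' hm' (by simpa using h))
    refine M.antichain hT hTV h2 hlow hc hc' (fun v hv hmv hφ => ?_) ⟨u', hu', hm', hφu', h3⟩
    rw [hone v hv hmv hφ]; exact h1
  -- at least two ports
  have hports2 : ∀ u ∈ T, G.m V T u ≠ 0 → ∃ u' ∈ T, G.m V T u' ≠ 0 ∧ u' ≠ u := by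
    intro u hu hm
    by_contra hno
    push Not at hno
    obtain ⟨φ, p, hc, hφ⟩ := M.low_false hT hTV hlow hu hm
    obtain ⟨φ', p', hc', hφ'⟩ := M.low_true hT hTV hlow hu hm
    refine M.antichain hT hTV h2 hlow hc hc' (fun v hv hmv hφv => ?_) ⟨u, hu, hm, hφ, hφ'⟩
    rw [hno v hv hmv]; exact hφ'
  have hcount : ∀ φ p, G.IsCol T φ p →
      ((G.ports V T).filter fun u => φ u = true).card = 2 := by
    intro φ p hc
    have h1 := hle2 φ p hc
    by_contra h3
    have h4 : ((G.ports V T).filter fun u => φ u = true).card ≤ 1 := by omega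
    by_cases h5 : ((G.ports V T).filter fun u => φ u = true).card = 0
    · rw [card_eq_zero] at h5
      refine hanti φ p hc u0 hu0 hm0 (fun v hv hmv hφ => ?_) (hports2 u0 hu0 hm0)
      have : v ∈ (G.ports V T).filter fun u => φ u = true :=
        mem_filter.mpr ⟨mem_ports.mpr ⟨hv, hmv⟩, hφ⟩
      rw [h5] at this
      exact absurd this (notMem_empty _)
    · have h6 : ((G.ports V T).filter fun u => φ u = true).card = 1 := by omega
      obtain ⟨u, hu⟩ := card_eq_one.mp h6
      have hu' : u ∈ (G.ports V T).filter fun u => φ u = true := by rw [hu]; simp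
      rw [mem_filter, mem_ports] at hu'
      refine hanti φ p hc u hu'.1.1 hu'.1.2 (fun v hv hmv hφ => ?_) (hports2 u hu'.1.1 hu'.1.2)
      have : v ∈ (G.ports V T).filter fun u => φ u = true :=
        mem_filter.mpr ⟨mem_ports.mpr ⟨hv, hmv⟩, hφ⟩
      rw [hu] at this
      exact mem_singleton.mp this
  obtain ⟨φ, p, hc, hφ⟩ := M.low_false hT hTV hlow hu0 hm0
  have h1 := hcount φ p hc
  have hcard : 2 < (G.ports V T).card := by
    rw [← h1]
    refine card_lt_card ⟨filter_subset _ _, fun hsub => ?_⟩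
    have := hsub (mem_ports.mpr ⟨hu0, hm0⟩)
    rw [mem_filter, hφ] at this
    exact Bool.noConfusion this.2
  refine M.low_aux hT hTV hlow (by omega) hcard hcount (fun Y hY hYne => ?_)
  have := hY4 Y hY hYne
  push_cast
  linarith

end Pool.Agent.K1H47.Defect
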